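import Pool.Agent.H89.PM.Stm

set_option autoImplicit false

/-!
# Piece ALL: from the parts of multidegree `r` to the whole module
-/

namespace Pool.Agent.H89.PM

open MvPolynomial Finset

namespace AllP

variable {ℓ n : ℕ}

lemma weight_apply' (c : Fin ℓ × Fin n →₀ ℕ) (i : Fin ℓ) :
    Finsupp.weight wt c i = ∑ j, c (i, j) := by
  rw [Finsupp.weight_apply, Finsupp.sum_fintype c (fun a k => k • (wt a : Fin ℓ → ℕ))
    (fun _ => zero_smul ℕ _), Finset.sum_apply, Fintype.sum_prod_type]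
  rw [Finset.sum_eq_single i]
  · refine Finset.sum_congr rfl fun j _ => ?_
    simp [wt]
  · intro i' _ hne
    refine Finset.sum_eq_zero fun j _ => ?_
    simp [wt, hne.symm]
  · intro h
    exact absurd (Finset.mem_univ i) h

lemma sAct_eq (σ : Equiv.Perm (Fin n)) (g : P ℓ n) :
    sAct σ g = aeval (fun a : Fin ℓ × Fin n => (X (a.1, σ a.2) : P ℓ n)) g := by
  unfold sAct
  rw [rename_eq_aeval]
  rfl

lemma dAct_eq (q : Fin ℓ → ℂ) (σ : Equiv.Perm (Fin n)) {r : Fin ℓ → ℕ} {g : P ℓ n}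
    (hg : IsWeightedHomogeneous wt g r) : dAct q σ g = (∏ i, q i ^ r i) • sAct σ g := by
  rw [sAct_eq]
  unfold dAct
  rw [as_sum g, map_sum, map_sum, Finset.smul_sum]
  refine Finset.sum_congr rfl fun c hc => ?_
  have hw := hg (mem_support_iff.mp hc)
  rw [aeval_monomial, aeval_monomial]
  have h1 : (c.prod fun (a : Fin ℓ × Fin n) k => (C (q a.1) * X (a.1, σ a.2) : P ℓ n) ^ k) =
      C (∏ i, q i ^ r i) * c.prod fun (a : Fin ℓ × Fin n) k => (X (a.1, σ a.2) : P ℓ n) ^ k := by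
    simp_rw [mul_pow]
    rw [Finsupp.prod_mul]
    congr 1
    rw [Finsupp.prod_fintype _ _ (fun _ => pow_zero _), Fintype.prod_prod_type, map_prod]
    refine Finset.prod_congr rfl fun i _ => ?_
    rw [← hw, weight_apply', ← Finset.prod_pow_eq_pow_sum, map_prod]
    exact Finset.prod_congr rfl fun j _ => (map_pow _ _ _).symm
  rw [h1, MvPolynomial.smul_eq_C_mul]
  ring

lemma sAct_wh (σ : Equiv.Perm (Fin n)) {r : Fin ℓ → ℕ} {g : P ℓ n}
    (hg : IsWeightedHomogeneous wt g r) : IsWeightedHomogeneous wt (sAct σ g) r := by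
  rw [as_sum g, map_sum]
  refine (weightedHomogeneousSubmodule ℂ wt r).sum_mem fun c hc => ?_
  have hw := hg (mem_support_iff.mp hc)
  unfold sAct
  rw [rename_monomial]
  refine isWeightedHomogeneous_monomial _ _ _ ?_
  rw [← hw]
  funext i
  rw [Finsupp.weight_apply, Finsupp.weight_apply, Finsupp.sum_mapDomain_index]
  · rfl
  · intro a
    exact zero_smul ℕ _
  · intro a k k'
    exact add_smul _ _ _

/-- the multidegrees of total degree at most `d` -/
def TT (ℓ d : ℕ) : Finset (Fin ℓ → ℕ) :=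
  (range (d + 1)).biUnion fun j => piAntidiag (univ : Finset (Fin ℓ)) j

lemma mem_TT {d : ℕ} {r : Fin ℓ → ℕ} : r ∈ TT ℓ d ↔ ∑ i, r i ≤ d := by
  unfold TT
  rw [mem_biUnion]
  constructor
  · rintro ⟨j, hj, hr⟩
    rw [mem_piAntidiag] at hr
    rw [mem_range] at hj
    rw [hr.1]
    omega
  · intro h
    exact ⟨∑ i, r i, mem_range.mpr (by omega), mem_piAntidiag.mpr ⟨rfl, fun i _ => mem_univ i⟩⟩

lemma sum_TT (d : ℕ) (q : Fin ℓ → ℂ) (t : ℕ → ℂ) :
    ∑ r ∈ TT ℓ d, (∏ i, q i ^ r i) * t (∑ i, r i) = ∑ j ∈ range (d + 1), sch j q * t j := by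
  unfold TT
  rw [sum_biUnion]
  · refine Finset.sum_congr rfl fun j _ => ?_
    unfold sch
    rw [Finset.sum_mul]
    refine Finset.sum_congr rfl fun r hr => ?_
    rw [(mem_piAntidiag.mp hr).1]
  · intro j _ j' _ hne
    rw [Function.onFun, Finset.disjoint_left]
    intro r hr hr'
    exact hne ((mem_piAntidiag.mp hr).1.symm.trans (mem_piAntidiag.mp hr').1)

end AllP

open AllP

theorem all : S_ALL := by
  intro ℓ n d M σ t hcomp hsig hfd hzero htr
  classical
  have hcomp0 : ∀ g ∈ M, ∀ r : Fin ℓ → ℕ, r ∉ TT ℓ d → weightedHomogeneousComponent wt r g = 0 := by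
    intro g hg r hr
    rw [mem_TT, not_le] at hr
    have h1 : weightedHomogeneousComponent wt r g ∈
        M ⊓ weightedHomogeneousSubmodule ℂ wt r :=
      ⟨hcomp g hg r, weightedHomogeneousComponent_isWeightedHomogeneous r g⟩
    rw [hzero r hr] at h1
    exact (Submodule.mem_bot ℂ).mp h1
  have hsum : ∀ g ∈ M, g = ∑ r ∈ TT ℓ d, weightedHomogeneousComponent wt r g := by
    intro g hg
    conv_lhs => rw [← sum_weightedHomogeneousComponent (wt : Fin ℓ × Fin n → Fin ℓ → ℕ) g]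
    refine finsum_eq_sum_of_support_subset _ fun r hr => ?_
    by_contra h
    exact hr (hcomp0 g hg r h)
  obtain ⟨N, hN⟩ : ∃ N : TT ℓ d → Submodule ℂ M, ∀ r, N r =
    (weightedHomogeneousSubmodule ℂ wt r.1).comap M.subtype := ⟨_, fun _ => rfl⟩
  have hmemN : ∀ (r : TT ℓ d) (v : M), v ∈ N r ↔ IsWeightedHomogeneous wt (v : P ℓ n) r.1 := by
    intro r v
    rw [hN, Submodule.mem_comap]
    exact mem_weightedHomogeneousSubmodule _ _ _ _
  have eN : ∀ r : TT ℓ d, Nonempty {e : N r ≃ₗ[ℂ] ↥(M ⊓ weightedHomogeneousSubmodule ℂ wt r.1) //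
      ∀ v, ((e v : ↥(M ⊓ weightedHomogeneousSubmodule ℂ wt r.1)) : P ℓ n) = ((v : M) : P ℓ n)} := by
    intro r
    refine ⟨⟨LinearEquiv.ofBijective (LinearMap.codRestrict
      (M ⊓ weightedHomogeneousSubmodule ℂ wt r.1) (M.subtype ∘ₗ (N r).subtype)
      fun v => ⟨v.1.2, (hmemN r v.1).mp v.2⟩) ⟨?_, ?_⟩, fun v => rfl⟩⟩
    · intro v v' h
      have h1 := congrArg (fun z : ↥(M ⊓ weightedHomogeneousSubmodule ℂ wt r.1) => (z : P ℓ n)) h
      exact Subtype.ext (Subtype.ext h1)
    · rintro ⟨g, hg1, hg2⟩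
      exact ⟨⟨⟨g, hg1⟩, (hmemN r ⟨g, hg1⟩).mpr hg2⟩, rfl⟩
  have hNfd : ∀ r : TT ℓ d, FiniteDimensional ℂ (N r) := by
    intro r
    obtain ⟨e, -⟩ := eN r
    have := hfd r.1
    exact LinearEquiv.finiteDimensional e.symm
  have hsup : ⨆ r, N r = ⊤ := by
    rw [eq_top_iff]
    rintro ⟨g, hg⟩ -
    have h1 : (⟨g, hg⟩ : M) = ∑ r : TT ℓ d,
        (⟨weightedHomogeneousComponent wt r.1 g, hcomp g hg r.1⟩ : M) := by
      apply Subtype.ext
      rw [AddSubmonoidClass.coe_finsetSum]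
      exact (hsum g hg).trans
        (Finset.sum_coe_sort (TT ℓ d) (fun r => weightedHomogeneousComponent wt r g)).symm
    rw [h1]
    refine Submodule.sum_mem _ fun r _ => Submodule.mem_iSup_of_mem r ?_
    rw [hmemN]
    exact weightedHomogeneousComponent_isWeightedHomogeneous _ _
  have hind : iSupIndep N := by
    rw [iSupIndep_def]
    intro r
    rw [Submodule.disjoint_def]
    intro v hv hv'
    have h1 : ⨆ j, ⨆ (_ : j ≠ r), N j ≤ LinearMap.ker
        ((weightedHomogeneousComponent wt r.1 : P ℓ n →ₗ[ℂ] P ℓ n) ∘ₗ M.subtype) := by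
      refine iSup_le fun j => iSup_le fun hj => ?_
      intro u hu
      rw [LinearMap.mem_ker]
      exact ((hmemN j u).mp hu).weightedHomogeneousComponent_ne r.1
        (fun h => hj (Subtype.ext h.symm))
    have h2 := LinearMap.mem_ker.mp (h1 hv')
    have h3 : weightedHomogeneousComponent wt r.1 (v : P ℓ n) = v :=
      ((hmemN r v).mp hv).weightedHomogeneousComponent_same
    exact Subtype.ext (h3.symm.trans h2)
  have hint : DirectSum.IsInternal N := DirectSum.isInternal_submodule_of_iSupIndep_of_iSup_eq_top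
    hind hsup
  have hMfd : FiniteDimensional ℂ M := by
    have h1 : FiniteDimensional ℂ (⨆ r, N r : Submodule ℂ M) := by
      have := hNfd
      exact Submodule.finiteDimensional_iSup N
    rw [hsup] at h1
    exact LinearEquiv.finiteDimensional Submodule.topEquiv
  refine ⟨hMfd, fun q => ⟨fun g hg => ?_, fun φ hφ => ?_⟩⟩
  · rw [hsum g hg, map_sum]
    refine M.sum_mem fun r _ => ?_
    rw [dAct_eq q σ (weightedHomogeneousComponent_isWeightedHomogeneous r g)]
    exact M.smul_mem _ (hsig _ (hcomp g hg r))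
  · have hmaps : ∀ r, Set.MapsTo φ (N r) (N r) := by
      intro r v hv
      have hv' := (hmemN r v).mp hv
      refine (hmemN r (φ v)).mpr ?_
      rw [hφ v, dAct_eq q σ hv']
      exact (weightedHomogeneousSubmodule ℂ wt r.1).smul_mem _ (sAct_wh σ hv')
    have := hNfd
    have hfree : ∀ r, Module.Free ℂ (N r) := fun r => Module.Free.of_divisionRing ℂ (N r)
    rw [LinearMap.trace_eq_sum_trace_restrict hint hmaps, ← sum_TT d q t,
      ← Finset.sum_coe_sort (TT ℓ d)]
    refine Finset.sum_congr rfl fun r _ => ?_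
    obtain ⟨e, he⟩ := eN r
    have := hfd r.1
    have hmap0 : ∀ g ∈ M ⊓ weightedHomogeneousSubmodule ℂ wt r.1,
        (sAct σ).toLinearMap g ∈ M ⊓ weightedHomogeneousSubmodule ℂ wt r.1 := by
      rintro g ⟨h1, h2⟩
      exact ⟨hsig g h1, sAct_wh σ h2⟩
    have h1 : e.conj (φ.restrict (hmaps r)) = (∏ i, q i ^ r.1 i) •
        ((sAct σ).toLinearMap.restrict hmap0) := by
      ext v
      rw [LinearEquiv.conj_apply_apply, he, LinearMap.smul_apply]
      have h2 : ((e.symm v : N r) : M) = ((⟨v.1, v.2.1⟩ : M)) := by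
        apply Subtype.ext
        rw [← he, LinearEquiv.apply_symm_apply]
      rw [LinearMap.coe_restrict_apply, hφ, h2]
      rw [dAct_eq q σ v.2.2]
      rfl
    have h3 := LinearMap.trace_conj' (R := ℂ) (M := N r)
      (N := ↥(M ⊓ weightedHomogeneousSubmodule ℂ wt r.1)) (φ.restrict (hmaps r)) e
    refine h3.symm.trans ?_
    rw [h1, map_smul, smul_eq_mul, htr r.1 _ (fun v => rfl)]

end Pool.Agent.H89.PM
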