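import Pool.Agent.H89.PM.Stm

set_option autoImplicit false

namespace Pool.Agent.H89.PM

open MvPolynomial Finset

variable {n : ℕ}

lemma der_xm_notMem (a : Fin n) (J : Finset (Fin n)) (h : a ∉ J) : pderiv a (xm J) = 0 := by
  rw [xm]
  induction J using Finset.induction_on with
  | empty => simp
  | insert b J hb ih =>
    rw [mem_insert, not_or] at h
    rw [Finset.prod_insert hb, Derivation.leibniz, ih h.2, pderiv_X_of_ne (Ne.symm h.1)]
    simp

lemma der_xm_insert (a : Fin n) (J : Finset (Fin n)) (h : a ∉ J) :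
    pderiv a (xm (insert a J)) = xm J := by
  rw [xm, Finset.prod_insert h, Derivation.leibniz, ← xm, der_xm_notMem a J h, pderiv_X_self]
  simp

lemma der_xs_notMem (a : Fin n) (J : Finset (Fin n)) (h : a ∉ J) : pderiv a (xs J) = 0 := by
  rw [xs, map_sum]
  refine Finset.sum_eq_zero fun b hb => ?_
  rw [pderiv_X_of_ne]
  rintro rfl
  exact h hb

lemma xs_insert (a : Fin n) (J : Finset (Fin n)) (h : a ∉ J) : xs (insert a J) = X a + xs J := by
  rw [xs, Finset.sum_insert h, ← xs]

lemma der_xs_mem (a : Fin n) (J : Finset (Fin n)) (h : a ∈ J) : pderiv a (xs J) = 1 := by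
  rw [← insert_erase h, xs_insert _ _ (notMem_erase a J), map_add,
    der_xs_notMem _ _ (notMem_erase a J), pderiv_X_self, add_zero]

/-- split a sum over `powersetCard (k + 1) Sᶜ` according to `a ∈ J` -/
lemma sum_split {M : Type*} [AddCommGroup M] (k : ℕ) (S : Finset (Fin n)) (a : Fin n)
    (ha : a ∉ S) (f : Finset (Fin n) → M) :
    ∑ J ∈ powersetCard (k + 1) Sᶜ, f J =
      ∑ J ∈ powersetCard (k + 1) (insert a S)ᶜ, f J +
      ∑ J ∈ powersetCard k (insert a S)ᶜ, f (insert a J) := by
  have h1 : Sᶜ = insert a (insert a S)ᶜ := by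
    ext x
    simp only [mem_compl, mem_insert]
    by_cases hx : x = a
    · subst hx
      simp [ha]
    · simp [hx]
  have h2 : a ∉ (insert a S)ᶜ := by simp
  rw [h1, powersetCard_succ_insert h2, Finset.sum_union, Finset.sum_image]
  · intro J hJ K hK h
    rw [mem_coe, mem_powersetCard] at hJ hK
    rw [← erase_insert (fun h' => h2 (hJ.1 h')), h, erase_insert (fun h' => h2 (hK.1 h'))]
  · rw [disjoint_left]
    intro J hJ hJ'
    rw [mem_image] at hJ'
    obtain ⟨K, _, rfl⟩ := hJ'
    exact h2 ((mem_powersetCard.1 hJ).1 (mem_insert_self a K))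

lemma notMem_of_compl {k : ℕ} {S J : Finset (Fin n)} {a : Fin n} (ha : a ∈ S)
    (hJ : J ∈ powersetCard k Sᶜ) : a ∉ J :=
  fun h => (mem_compl.1 ((mem_powersetCard.1 hJ).1 h)) ha

lemma ee_zero (S : Finset (Fin n)) : ee 0 S = 1 := by
  simp [ee, xm]

lemma mm_zero' (S : Finset (Fin n)) : mm 0 S = 0 := by
  simp [mm, xs]

lemma der_ee_mem (k : ℕ) (S : Finset (Fin n)) (a : Fin n) (ha : a ∈ S) :
    pderiv a (ee k S) = 0 := by
  rw [ee, map_sum]
  exact Finset.sum_eq_zero fun J hJ => der_xm_notMem a J (notMem_of_compl ha hJ)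

lemma der_mm_mem (k : ℕ) (S : Finset (Fin n)) (a : Fin n) (ha : a ∈ S) :
    pderiv a (mm k S) = 0 := by
  rw [mm, map_sum]
  refine Finset.sum_eq_zero fun J hJ => ?_
  rw [Derivation.leibniz, der_xm_notMem a J (notMem_of_compl ha hJ),
    der_xs_notMem a J (notMem_of_compl ha hJ), smul_zero, smul_zero, add_zero]

lemma der_ee_succ (k : ℕ) (S : Finset (Fin n)) (a : Fin n) (ha : a ∉ S) :
    pderiv a (ee (k + 1) S) = ee k (insert a S) := by
  rw [ee, sum_split k S a ha, map_add, map_sum, map_sum, Finset.sum_eq_zero, zero_add, ee]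
  · refine Finset.sum_congr rfl fun J hJ => ?_
    rw [der_xm_insert a J (notMem_of_compl (mem_insert_self a S) hJ)]
  · intro J hJ
    exact der_xm_notMem a J (notMem_of_compl (mem_insert_self a S) hJ)

lemma der_mm_succ (k : ℕ) (S : Finset (Fin n)) (a : Fin n) (ha : a ∉ S) :
    pderiv a (mm (k + 1) S) = 2 * X a * ee k (insert a S) + mm k (insert a S) := by
  rw [mm, sum_split k S a ha, map_add, map_sum, map_sum, Finset.sum_eq_zero, zero_add, mm, ee,
    Finset.mul_sum, ← Finset.sum_add_distrib]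
  · refine Finset.sum_congr rfl fun J hJ => ?_
    have haJ := notMem_of_compl (mem_insert_self a S) hJ
    rw [Derivation.leibniz, der_xm_insert a J haJ, xs_insert a J haJ, map_add, pderiv_X_self,
      der_xs_notMem a J haJ, smul_eq_mul, smul_eq_mul, xm, Finset.prod_insert haJ, ← xm]
    ring
  · intro J hJ
    have haJ := notMem_of_compl (mem_insert_self a S) hJ
    rw [Derivation.leibniz, der_xm_notMem a J haJ, der_xs_notMem a J haJ, smul_zero, smul_zero,
      add_zero]

lemma der_two (a : Fin n) : pderiv a (2 : MvPolynomial (Fin n) ℂ) = 0 := by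
  have : (2 : MvPolynomial (Fin n) ℂ) = C 2 := (map_ofNat C 2).symm
  rw [this, pderiv_C]

theorem der : S_DER := by
  intro n k S a
  constructor
  · intro ha
    refine ⟨der_ee_mem k S a ha, ?_⟩
    rw [gg, map_add, der_mm_mem k S a ha, Derivation.leibniz, der_ee_mem k S a ha,
      Derivation.leibniz, der_xs_mem a S ha, der_two]
    simp only [smul_eq_mul]
    ring
  · intro ha
    refine ⟨?_, ?_, der_ee_succ k S a ha, ?_⟩
    · rw [ee_zero, Derivation.map_one_eq_zero]
    · rw [gg, mm_zero', ee_zero, add_zero, mul_one, Derivation.leibniz, der_xs_notMem a S ha,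
        der_two]
      simp
    · rw [gg, map_add, der_mm_succ k S a ha, Derivation.leibniz, der_ee_succ k S a ha,
        Derivation.leibniz, der_xs_notMem a S ha, der_two, gg, xs_insert a S ha]
      simp only [smul_eq_mul]
      ring

theorem e2 : S_E2 := by
  intro n k
  have h1 : ∀ a : Fin n, pderiv a (pderiv a (gg (n := n) (k + 1) ∅)) = 2 * ee k {a} := by
    intro a
    rw [((der n k ∅ a).2 (notMem_empty a)).2.2.2, insert_empty_eq,
      ((der n k {a} a).1 (mem_singleton_self a)).2]
  simp only [h1]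
  -- count
  have h2 : ∑ a : Fin n, X a * ee k {a} = ((k + 1 : ℕ) : ℂ) • ee (n := n) (k + 1) ∅ := by
    have h3 : ∀ a : Fin n, X a * ee k {a} =
        ∑ J ∈ powersetCard (k + 1) (univ : Finset (Fin n)), if a ∈ J then xm J else 0 := by
      intro a
      have h4 := sum_split (n := n) k ∅ a (notMem_empty a) (fun J => if a ∈ J then xm J else 0)
      rw [compl_empty] at h4
      rw [h4, Finset.sum_eq_zero, zero_add, insert_empty_eq, ee, Finset.mul_sum]
      · refine Finset.sum_congr rfl fun J hJ => ?_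
        have haJ := notMem_of_compl (mem_singleton_self a) hJ
        rw [if_pos (mem_insert_self a J), xm, xm, Finset.prod_insert haJ]
      · intro J hJ
        rw [if_neg (notMem_of_compl (mem_insert_self a ∅) hJ)]
    simp only [h3]
    rw [Finset.sum_comm, ee, compl_empty, Finset.smul_sum]
    refine Finset.sum_congr rfl fun J hJ => ?_
    rw [← Finset.sum_filter, Finset.sum_const, filter_mem_eq_inter, univ_inter,
      (mem_powersetCard.1 hJ).2, ← Nat.cast_smul_eq_nsmul ℂ]
  have h5 : ∀ a : Fin n, X a * (2 * ee k {a}) = (2 : ℂ) • (X a * ee k {a}) := by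
    intro a
    rw [smul_eq_C_mul]
    simp only [map_ofNat]
    ring
  simp only [h5]
  rw [← Finset.smul_sum, h2, smul_smul]
  push_cast
  rfl

theorem m21' : S_M21 := by
  intro n d hd
  obtain ⟨k, rfl⟩ : ∃ k, d = k + 2 := ⟨d - 2, by omega⟩
  have h0 : k + 2 - 2 = k := by omega
  have h1 : k + 2 - 1 = k + 1 := by omega
  rw [m21, h0, h1, gg, mm, compl_empty]
  have h2 : xs (∅ : Finset (Fin n)) = 0 := by simp [xs]
  rw [h2, mul_zero, zero_mul, zero_add]
  have h3 : ∀ J ∈ powersetCard (k + 1) (univ : Finset (Fin n)), xm J * xs J =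
      ∑ a : Fin n, if a ∈ J then xm J * X a else 0 := by
    intro J _
    rw [← Finset.sum_filter, filter_mem_eq_inter, univ_inter, xs, Finset.mul_sum]
  rw [Finset.sum_congr rfl h3, Finset.sum_comm]
  refine Finset.sum_congr rfl fun a _ => ?_
  have h4 := sum_split (n := n) k ∅ a (notMem_empty a)
    (fun J => if a ∈ J then xm J * X a else 0)
  rw [compl_empty] at h4
  rw [h4]
  have h5 : ∑ J ∈ powersetCard (k + 1) (insert a (∅ : Finset (Fin n)))ᶜ,
      (if a ∈ J then xm J * X a else 0) = 0 := by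
    refine Finset.sum_eq_zero fun J hJ => ?_
    rw [if_neg (notMem_of_compl (mem_insert_self a ∅) hJ)]
  rw [h5, zero_add]
  have h6 : (univ : Finset (Fin n)).erase a = (insert a (∅ : Finset (Fin n)))ᶜ := by
    ext x
    simp
  rw [h6]
  refine Finset.sum_congr rfl fun J hJ => ?_
  have haJ := notMem_of_compl (mem_insert_self a ∅) hJ
  rw [if_pos (mem_insert_self a J), xm, Finset.prod_insert haJ]
  ring

lemma xm_hom (J : Finset (Fin n)) : (xm J).IsHomogeneous J.card := by
  rw [xm]
  have h := IsHomogeneous.prod J (fun b => (X b : MvPolynomial (Fin n) ℂ)) (fun _ => 1)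
    (fun b _ => isHomogeneous_X ℂ b)
  simpa using h

lemma xs_hom (J : Finset (Fin n)) : (xs J).IsHomogeneous 1 :=
  IsHomogeneous.sum _ _ _ fun b _ => isHomogeneous_X ℂ b

theorem hom : S_HOM := by
  intro n k S
  have h1 : (ee k S).IsHomogeneous k := by
    refine IsHomogeneous.sum _ _ _ fun J hJ => ?_
    rw [← (mem_powersetCard.1 hJ).2]
    exact xm_hom J
  refine ⟨h1, ?_⟩
  rw [gg]
  refine IsHomogeneous.add ?_ ?_
  · have h2 : (2 * xs S : MvPolynomial (Fin n) ℂ).IsHomogeneous 1 := by
      rw [two_mul]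
      exact (xs_hom S).add (xs_hom S)
    have := h2.mul h1
    rwa [add_comm] at this
  · refine IsHomogeneous.sum _ _ _ fun J hJ => ?_
    rw [← (mem_powersetCard.1 hJ).2]
    exact (xm_hom J).mul (xs_hom J)

lemma ren_xm (S : Finset (Fin n)) (σ : Equiv.Perm (Fin n)) :
    rename σ (xm S) = xm (S.map σ.toEmbedding) := by
  rw [xm, xm, map_prod, Finset.prod_map]
  refine Finset.prod_congr rfl fun b _ => ?_
  rw [rename_X]
  rfl

lemma ren_xs (S : Finset (Fin n)) (σ : Equiv.Perm (Fin n)) :
    rename σ (xs S) = xs (S.map σ.toEmbedding) := by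
  rw [xs, xs, map_sum, Finset.sum_map]
  refine Finset.sum_congr rfl fun b _ => ?_
  rw [rename_X]
  rfl

lemma sum_map_powerset {M : Type*} [AddCommGroup M] (k : ℕ) (S : Finset (Fin n))
    (σ : Equiv.Perm (Fin n)) (f : Finset (Fin n) → M) :
    ∑ J ∈ powersetCard k (S.map σ.toEmbedding)ᶜ, f J =
      ∑ J ∈ powersetCard k Sᶜ, f (J.map σ.toEmbedding) := by
  have h1 : (S.map σ.toEmbedding)ᶜ = Sᶜ.map σ.toEmbedding := by
    ext x
    simp [mem_map_equiv]
  rw [h1]
  symm
  refine Finset.sum_bij (fun J _ => J.map σ.toEmbedding) ?_ ?_ ?_ ?_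
  · intro J hJ
    rw [mem_powersetCard] at hJ ⊢
    exact ⟨map_subset_map.2 hJ.1, by rw [card_map, hJ.2]⟩
  · intro J _ K _ h
    exact map_injective _ h
  · intro K hK
    rw [mem_powersetCard] at hK
    obtain ⟨J, hJ, rfl⟩ := subset_map_iff.1 hK.1
    refine ⟨J, mem_powersetCard.2 ⟨hJ, ?_⟩, rfl⟩
    rw [← hK.2, card_map]
  · intro J _
    rfl

theorem ren : S_REN := by
  intro n k S σ
  have hee : rename σ (ee k S) = ee k (S.map σ.toEmbedding) := by
    rw [ee, ee, map_sum, sum_map_powerset]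
    exact Finset.sum_congr rfl fun J _ => ren_xm J σ
  refine ⟨ren_xm S σ, ren_xs S σ, hee, ?_⟩
  rw [gg, gg, map_add, map_mul, map_mul, ren_xs, hee]
  have hmm : rename σ (mm k S) = mm k (S.map σ.toEmbedding) := by
    rw [mm, mm, map_sum, sum_map_powerset]
    refine Finset.sum_congr rfl fun J _ => ?_
    rw [map_mul, ren_xm, ren_xs]
  rw [hmm, map_ofNat]

theorem star : S_STAR := by
  intro n k S
  have h1 : ∀ i ∈ S, ee (k + 1) (S.erase i) = ee (k + 1) S + X i * ee k S := by
    intro i hi
    have h2 := sum_split (n := n) k (S.erase i) i (notMem_erase i S) xm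
    rw [insert_erase hi] at h2
    rw [ee, h2, ee, ee, Finset.mul_sum]
    congr 1
    refine Finset.sum_congr rfl fun J hJ => ?_
    rw [xm, Finset.prod_insert (notMem_of_compl hi hJ), ← xm]
  rw [Finset.sum_congr rfl h1, Finset.sum_add_distrib, Finset.sum_const, xs, Finset.sum_mul,
    ← Nat.cast_smul_eq_nsmul ℂ]

end Pool.Agent.H89.PM
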