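import Pool.Agent.H89.PM.Stm

set_option autoImplicit false

namespace Pool.Agent.H89.PM

open MvPolynomial Finset

lemma tel (F : ℕ → ℂ) (m : ℕ) :
    ∑ i ∈ range (m + 1), (F i - if i = 0 then 0 else F (i - 1)) = F m := by
  induction m with
  | zero => simp
  | succ m ih => rw [Finset.sum_range_succ, ih]; simp

lemma sumr (F : ℕ → ℂ) (N a : ℕ) (h : a ≤ N) :
    ∑ i ∈ range N, (if i < a then (1 : ℂ) else 0) * (F i - if i = 0 then 0 else F (i - 1)) =
      if a = 0 then 0 else F (a - 1) := by
  have h1 : ∑ i ∈ range N, (if i < a then (1 : ℂ) else 0) *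
      (F i - if i = 0 then 0 else F (i - 1)) =
      ∑ i ∈ range a, (F i - if i = 0 then 0 else F (i - 1)) := by
    rw [← Finset.sum_subset (s₁ := range a) (s₂ := range N) (by
      intro i hi
      rw [mem_range] at hi ⊢
      omega)]
    · refine Finset.sum_congr rfl fun i hi => ?_
      rw [if_pos (mem_range.1 hi), one_mul]
    · intro i _ hi
      rw [if_neg (fun h => hi (mem_range.2 h)), zero_mul]
  rw [h1]
  cases a with
  | zero => simp
  | succ a => rw [tel]; simp

lemma form_aux (d j a b : ℕ) (F : ℕ → ℂ) (ha : a ≤ d / 2 + 1) (hb : b ≤ d / 2 + 1)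
    (h : ∀ i, i < d / 2 + 1 → coef d i j = (if i < a then 1 else 0) + if i < b then 1 else 0) :
    ∑ i ∈ range (d / 2 + 1), (coef d i j : ℂ) * (F i - if i = 0 then 0 else F (i - 1)) =
      (if a = 0 then 0 else F (a - 1)) + if b = 0 then 0 else F (b - 1) := by
  rw [← sumr F _ a ha, ← sumr F _ b hb, ← Finset.sum_add_distrib]
  refine Finset.sum_congr rfl fun i hi => ?_
  rw [h i (mem_range.1 hi), ← add_mul]
  push_cast
  rfl

theorem form : S_FORM := by
  intro d j F hd
  unfold tr
  by_cases h1 : d < j
  · rw [if_pos h1, form_aux d j 0 0 F (by omega) (by omega)]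
    · simp
    · intro i hi
      unfold coef
      split_ifs <;> omega
  rw [if_neg h1]
  by_cases h2 : j = 1
  · rw [if_pos h2, form_aux d j 0 2 F (by omega) (by omega)]
    · simp
    · intro i hi
      unfold coef
      split_ifs <;> omega
  rw [if_neg h2]
  by_cases h3 : j = 0 ∨ j = d
  · have hm : min j (d - j) = 0 := by omega
    rw [hm, form_aux d j 0 1 F (by omega) (by omega)]
    · simp
    · intro i hi
      unfold coef
      split_ifs <;> omega
  · obtain ⟨m, hm⟩ : ∃ m, min j (d - j) = m := ⟨_, rfl⟩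
    rw [hm, form_aux d j m (m + 1) F (by omega) (by omega)]
    · simp [add_comm]
    · intro i hi
      unfold coef
      split_ifs <;> omega

end Pool.Agent.H89.PM
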