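import Pool.Agent.H89.PM.Stm

set_option autoImplicit false

namespace Pool.Agent.H89.PM

open MvPolynomial Finset

/-! ### `S_EQV` -/

/-- the permutation of the `k`-element subsets -/
def mpE {n : ℕ} (k : ℕ) (σ : Equiv.Perm (Fin n)) :
    {S : Finset (Fin n) // S.card = k} ≃ {S : Finset (Fin n) // S.card = k} where
  toFun S := ⟨S.1.map σ.toEmbedding, by rw [card_map, S.2]⟩
  invFun S := ⟨S.1.map σ⁻¹.toEmbedding, by rw [card_map, S.2]⟩
  left_inv S := by
    apply Subtype.ext
    ext x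
    simp only [mem_map_equiv]
    show σ.symm (σ x) ∈ S.1 ↔ x ∈ S.1
    rw [Equiv.symm_apply_apply]
  right_inv S := by
    apply Subtype.ext
    ext x
    simp only [mem_map_equiv]
    show σ (σ.symm x) ∈ S.1 ↔ x ∈ S.1
    rw [Equiv.apply_symm_apply]

lemma uAct_mpE {n k : ℕ} (σ : Equiv.Perm (Fin n)) (κ : U n k)
    (S : {S : Finset (Fin n) // S.card = k}) : uAct k σ κ (mpE k σ S) = κ S := by
  show κ ((mpE k σ).symm (mpE k σ S)) = κ S
  rw [Equiv.symm_apply_apply]

lemma sum_uAct {n k : ℕ} {M : Type*} [AddCommGroup M] [Module ℂ M] (σ : Equiv.Perm (Fin n))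
    (κ : U n k) (f : Finset (Fin n) → M) :
    ∑ S, uAct k σ κ S • f S.1 = ∑ S, κ S • f (S.1.map σ.toEmbedding) := by
  rw [← Equiv.sum_comp (mpE k σ)]
  refine Finset.sum_congr rfl fun S _ => ?_
  rw [uAct_mpE]
  rfl

theorem eqv (hR : S_REN) : S_EQV := by
  intro n k j σ κ
  refine ⟨?_, ?_, ?_, ?_⟩
  · show rename σ (∑ S, κ S • xm S.1) = ∑ S, uAct k σ κ S • xm S.1
    rw [sum_uAct, map_sum]
    refine Finset.sum_congr rfl fun S _ => ?_
    rw [map_smul, (hR n k S.1 σ).1]
  · show rename σ (∑ S, κ S • (xm S.1 * xs S.1)) = ∑ S, uAct k σ κ S • (xm S.1 * xs S.1)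
    rw [sum_uAct σ κ (fun S => xm S * xs S), map_sum]
    refine Finset.sum_congr rfl fun S _ => ?_
    rw [map_smul, map_mul, (hR n k S.1 σ).1, (hR n k S.1 σ).2.1]
  · show rename σ (∑ S, κ S • gg j S.1) = ∑ S, uAct k σ κ S • gg j S.1
    rw [sum_uAct σ κ (fun S => gg j S), map_sum]
    refine Finset.sum_congr rfl fun S _ => ?_
    rw [map_smul, (hR n j S.1 σ).2.2.2]
  · funext K
    show ∑ T, (if Disjoint T.1 K.1 then uAct k σ κ T else 0) =
      ∑ T, (if Disjoint T.1 ((mpE j σ).symm K).1 then κ T else 0)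
    rw [← Equiv.sum_comp (mpE k σ)]
    refine Finset.sum_congr rfl fun T _ => ?_
    rw [uAct_mpE]
    have h : Disjoint (mpE k σ T).1 K.1 ↔ Disjoint T.1 ((mpE j σ).symm K).1 := by
      obtain ⟨K', rfl⟩ := (mpE j σ).surjective K
      rw [Equiv.symm_apply_apply]
      show Disjoint (T.1.map σ.toEmbedding) (K'.1.map σ.toEmbedding) ↔ _
      rw [disjoint_map]
    by_cases h' : Disjoint T.1 ((mpE j σ).symm K).1
    · rw [if_pos h', if_pos (h.2 h')]
    · rw [if_neg h', if_neg (fun h2 => h' (h.1 h2))]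

/-! ### `S_SUM` -/

lemma sum_sub {n : ℕ} {M : Type*} [AddCommGroup M] (j : ℕ) (S : Finset (Fin n))
    (f : Finset (Fin n) → M) :
    ∑ J ∈ powersetCard j Sᶜ, f J =
      ∑ J : {J : Finset (Fin n) // J.card = j}, if Disjoint S J.1 then f J.1 else 0 := by
  rw [← Finset.sum_filter]
  refine Finset.sum_bij' (fun J hJ => ⟨J, (mem_powersetCard.1 hJ).2⟩) (fun J _ => J.1)
    ?_ ?_ ?_ ?_ ?_
  · intro J hJ
    rw [mem_filter]
    exact ⟨mem_univ _, disjoint_compl_right.mono_right (mem_powersetCard.1 hJ).1⟩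
  · intro J hJ
    rw [mem_filter] at hJ
    exact mem_powersetCard.2 ⟨le_compl_iff_disjoint_left.2 hJ.2, J.2⟩
  · intro J _
    rfl
  · intro J _
    rfl
  · intro J _
    rfl

lemma sum_D {n t j : ℕ} {M : Type*} [AddCommGroup M] [Module ℂ M] (κ : U n t)
    (f : Finset (Fin n) → M) :
    ∑ T, κ T • (∑ J ∈ powersetCard j T.1ᶜ, f J) = ∑ J, D t j κ J • f J.1 := by
  simp only [sum_sub, Finset.smul_sum]
  rw [Finset.sum_comm]
  refine Finset.sum_congr rfl fun J _ => ?_
  show _ = (∑ T, if Disjoint T.1 J.1 then κ T else 0) • f J.1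
  rw [Finset.sum_smul]
  refine Finset.sum_congr rfl fun T _ => ?_
  split_ifs <;> simp

lemma pl_single {n k : ℕ} (S : Finset (Fin n)) (h : S.card = k) :
    pl k (Pi.single ⟨S, h⟩ 1) = xm S := by
  show ∑ T, (Pi.single (⟨S, h⟩ : {S : Finset (Fin n) // S.card = k}) (1 : ℂ) :
    U n k) T • xm T.1 = _
  rw [Finset.sum_eq_single ⟨S, h⟩]
  · simp
  · intro T _ hT
    rw [Pi.single_eq_of_ne hT, zero_smul]
  · intro h
    exact absurd (Finset.mem_univ _) h

lemma xm_mem {n k : ℕ} (S : Finset (Fin n)) (h : S.card = k) :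
    xm S ∈ LinearMap.range (pl (n := n) k) := ⟨_, pl_single S h⟩

theorem sumS : S_SUM := by
  intro n t j
  refine ⟨fun κ => sum_D κ _, fun κ => sum_D κ (fun J => xm J * xs J), fun S => ?_, fun S => ?_⟩
  · have h : xs S * ee j S ∈ LinearMap.range (pl (n := n) (j + 1)) := by
      rw [xs, ee, Finset.sum_mul_sum]
      refine Submodule.sum_mem _ fun a ha => Submodule.sum_mem _ fun J hJ => ?_
      rw [mem_powersetCard] at hJ
      have haJ : a ∉ J := fun h => (mem_compl.1 (hJ.1 h)) ha
      have h1 : X a * xm J = xm (insert a J) := by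
        rw [xm, xm, Finset.prod_insert haJ]
      rw [h1]
      exact xm_mem _ (by rw [card_insert_of_notMem haJ, hJ.2])
    obtain ⟨p, hp⟩ := h
    exact ⟨p, hp.symm⟩
  · have h : ee j S ∈ LinearMap.range (pl (n := n) j) := by
      rw [ee]
      refine Submodule.sum_mem _ fun J hJ => xm_mem _ (mem_powersetCard.1 hJ).2
    obtain ⟨p, hp⟩ := h
    exact ⟨p, hp.symm⟩

/-! ### `S_INJ` -/

/-- exponent of `x_S` -/
noncomputable def ind {n : ℕ} (S : Finset (Fin n)) : Fin n →₀ ℕ := ∑ b ∈ S, Finsupp.single b 1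

lemma ind_apply {n : ℕ} (S : Finset (Fin n)) (x : Fin n) : ind S x = if x ∈ S then 1 else 0 := by
  rw [ind, Finsupp.finset_sum_apply]
  simp [Finsupp.single_apply]

lemma xm_eq {n : ℕ} (S : Finset (Fin n)) : xm S = monomial (ind S) (1 : ℂ) := by
  rw [xm, ind, monomial_sum_one]
  rfl

lemma ind_inj {n : ℕ} {S T : Finset (Fin n)} (h : ind S = ind T) : S = T := by
  ext x
  have h1 := DFunLike.congr_fun h x
  rw [ind_apply, ind_apply] at h1
  by_cases hS : x ∈ S <;> by_cases hT : x ∈ T <;> simp_all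

lemma coeff_pl {n k : ℕ} (κ : U n k) (m : Fin n →₀ ℕ) :
    coeff m (pl k κ) = ∑ S, κ S * if ind S.1 = m then 1 else 0 := by
  show coeff m (∑ S, κ S • xm S.1) = _
  rw [coeff_sum]
  refine Finset.sum_congr rfl fun S _ => ?_
  rw [coeff_smul, xm_eq, coeff_monomial, smul_eq_mul]

lemma coeff_ps {n k : ℕ} (κ : U n k) (m : Fin n →₀ ℕ) :
    coeff m (ps k κ) = ∑ S, κ S * ∑ b ∈ S.1, if ind S.1 + Finsupp.single b 1 = m then 1 else 0 := by
  show coeff m (∑ S, κ S • (xm S.1 * xs S.1)) = _
  rw [coeff_sum]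
  refine Finset.sum_congr rfl fun S _ => ?_
  rw [coeff_smul, smul_eq_mul, xs, Finset.mul_sum, coeff_sum]
  congr 1
  refine Finset.sum_congr rfl fun b _ => ?_
  rw [xm_eq, X, monomial_mul, coeff_monomial, one_mul]

theorem inj : S_INJ := by
  intro n k
  constructor
  · rw [← LinearMap.ker_eq_bot, LinearMap.ker_eq_bot']
    intro κ hκ
    funext S
    have h := coeff_pl κ (ind S.1)
    rw [hκ, coeff_zero, Finset.sum_eq_single S] at h
    · simpa using h.symm
    · intro T _ hT
      rw [if_neg (fun h => hT (Subtype.ext (ind_inj h))), mul_zero]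
    · intro h
      exact absurd (Finset.mem_univ _) h
  · intro hk q p h0
    funext S
    have hne : S.1.Nonempty := by
      rw [← card_pos, S.2]
      omega
    obtain ⟨a, ha⟩ := hne
    have key : ∀ (T : Finset (Fin n)) (b : Fin n), b ∈ T →
        ind T + Finsupp.single b 1 = ind S.1 + Finsupp.single a 1 → T = S.1 ∧ b = a := by
      intro T b hb h
      have h1 := DFunLike.congr_fun h a
      rw [Finsupp.add_apply, Finsupp.add_apply, ind_apply, ind_apply, if_pos ha,
        Finsupp.single_eq_same] at h1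
      have hba : b = a := by
        by_contra hba
        rw [Finsupp.single_eq_of_ne (Ne.symm hba)] at h1
        split_ifs at h1 <;> omega
      subst hba
      exact ⟨ind_inj (add_right_cancel h), rfl⟩
    have h := congrArg (coeff (ind S.1 + Finsupp.single a 1)) h0
    rw [coeff_add, coeff_ps, coeff_pl, coeff_zero, Finset.sum_eq_single S,
      Finset.sum_eq_zero (s := (univ : Finset {S : Finset (Fin n) // S.card = k + 1})),
      add_zero, Finset.sum_eq_single a, if_pos rfl, mul_one] at h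
    · exact h
    · intro b hb hba
      rw [if_neg]
      intro h'
      exact hba (key _ _ hb h').2
    · intro h'
      exact absurd ha h'
    · intro T _
      rw [if_neg, mul_zero]
      intro h'
      have h1 := DFunLike.congr_fun h' a
      rw [Finsupp.add_apply, ind_apply, ind_apply, if_pos ha, Finsupp.single_eq_same] at h1
      split_ifs at h1 <;> omega
    · intro T _ hT
      rw [Finset.sum_eq_zero, mul_zero]
      intro b hb
      rw [if_neg]
      intro h'
      exact hT (Subtype.ext (key _ _ hb h').1)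
    · intro h'
      exact absurd (Finset.mem_univ _) h'

end Pool.Agent.H89.PM
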