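import Pool.Agent.H89.PM.Stm

set_option autoImplicit false

namespace Pool.Agent.H89.PM

open MvPolynomial Finset

theorem tru : S_TRU := by
  intro n k σ
  rw [LinearMap.trace_eq_matrix_trace ℂ (Pi.basisFun ℂ {S : Finset (Fin n) // S.card = k}),
    Matrix.trace]
  have h1 : ∀ S : {S : Finset (Fin n) // S.card = k},
      (LinearMap.toMatrix (Pi.basisFun ℂ {S : Finset (Fin n) // S.card = k})
        (Pi.basisFun ℂ {S : Finset (Fin n) // S.card = k}) (uAct k σ)).diag S =
      if S.1.map σ.toEmbedding = S.1 then 1 else 0 := by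
    intro S
    rw [Matrix.diag_apply, LinearMap.toMatrix_apply]
    simp only [Pi.basisFun_apply, Pi.basisFun_repr]
    show (Pi.single S (1 : ℂ) : U n k) ⟨S.1.map σ⁻¹.toEmbedding, _⟩ = _
    by_cases h : S.1.map σ.toEmbedding = S.1
    · rw [if_pos h]
      have h2 : (⟨S.1.map σ⁻¹.toEmbedding, by rw [card_map, S.2]⟩ :
          {S : Finset (Fin n) // S.card = k}) = S := by
        apply Subtype.ext
        show S.1.map σ⁻¹.toEmbedding = S.1
        conv_lhs => rw [← h]
        ext x
        simp only [mem_map_equiv]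
        show σ.symm (σ x) ∈ S.1 ↔ x ∈ S.1
        rw [Equiv.symm_apply_apply]
      rw [h2, Pi.single_eq_same]
    · rw [if_neg h]
      refine Pi.single_eq_of_ne ?_ _
      intro h2
      apply h
      have h3 : S.1.map σ⁻¹.toEmbedding = S.1 := congrArg Subtype.val h2
      conv_lhs => rw [← h3]
      ext x
      simp only [mem_map_equiv]
      show σ (σ.symm x) ∈ S.1 ↔ x ∈ S.1
      rw [Equiv.apply_symm_apply]
  rw [Finset.sum_congr rfl fun S _ => h1 S, fix]
  rw [Finset.sum_boole]
  congr 1
  refine Finset.card_bij (fun S _ => S.1) ?_ ?_ ?_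
  · intro S hS
    rw [mem_filter] at hS ⊢
    exact ⟨mem_powersetCard.2 ⟨subset_univ _, S.2⟩, hS.2⟩
  · intro S _ T _ h
    exact Subtype.ext h
  · intro S hS
    rw [mem_filter, mem_powersetCard] at hS
    exact ⟨⟨S, hS.1.2⟩, by simp [hS.2], rfl⟩

end Pool.Agent.H89.PM
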