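import Pool.Agent.H89.PM.Iso
import Pool.Agent.H89.PM.Form
import Pool.Agent.H89.PM.Tru
import Pool.Agent.H89.PM.Lin
import Pool.Agent.H89.PM.Der

set_option autoImplicit false

namespace Pool.Agent.H89.PM

open MvPolynomial Finset

variable {ℓ n : ℕ}

lemma polMod_closed (f : P ℓ n) : Closed f (polMod f) := by
  refine ⟨fun σ => ?_, fun a g hg => ?_, fun p hp i k g hg => ?_⟩
  · rw [polMod, Submodule.mem_sInf]
    intro W hW
    exact hW.orbit σ
  · rw [polMod, Submodule.mem_sInf] at hg ⊢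
    intro W hW
    exact hW.deriv a g (hg W hW)
  · rw [polMod, Submodule.mem_sInf] at hg ⊢
    intro W hW
    exact hW.polar p hp i k g (hg W hW)

lemma sAct_mul (σ τ : Equiv.Perm (Fin n)) (f : P ℓ n) :
    sAct σ (sAct τ f) = sAct (σ * τ) f := by
  simp only [sAct, rename_rename]
  rfl

lemma sAct_X (σ : Equiv.Perm (Fin n)) (i : Fin ℓ) (j : Fin n) :
    sAct σ (X (i, j) : P ℓ n) = X (i, σ j) := by
  simp [sAct]

lemma inj_perm (σ : Equiv.Perm (Fin n)) :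
    Function.Injective (fun a : Fin ℓ × Fin n => (a.1, σ a.2)) := by
  rintro ⟨a, b⟩ ⟨c, d⟩ h
  simp only [Prod.mk.injEq, EmbeddingLike.apply_eq_iff_eq] at h
  rw [h.1, h.2]

lemma sAct_pderiv (σ : Equiv.Perm (Fin n)) (i : Fin ℓ) (j : Fin n) (f : P ℓ n) :
    sAct σ (pderiv (i, j) f) = pderiv (i, σ j) (sAct σ f) :=
  (pderiv_rename (inj_perm σ) (i, j) f).symm

lemma sAct_iter (σ : Equiv.Perm (Fin n)) (i : Fin ℓ) (j : Fin n) (p : ℕ) (f : P ℓ n) :
    sAct σ ((pderiv (i, j))^[p] f) = (pderiv (i, σ j))^[p] (sAct σ f) := by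
  induction p with
  | zero => rfl
  | succ p ih => rw [Function.iterate_succ_apply', Function.iterate_succ_apply', sAct_pderiv, ih]

lemma sAct_E (σ : Equiv.Perm (Fin n)) (p : ℕ) (i k : Fin ℓ) (f : P ℓ n) :
    sAct σ (E p i k f) = E p i k (sAct σ f) := by
  unfold E
  rw [map_sum, ← Equiv.sum_comp σ (fun j => X (i, j) * (pderiv (k, j))^[p] (sAct σ f))]
  refine sum_congr rfl fun j _ => ?_
  rw [map_mul, sAct_X, sAct_iter]

/-- the polarization module is stable under permutations -/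
lemma polMod_sAct (f : P ℓ n) (σ : Equiv.Perm (Fin n)) {v : P ℓ n} (hv : v ∈ polMod f) :
    sAct σ v ∈ polMod f := by
  have hc := polMod_closed f
  have h : Closed f ((polMod f).comap (sAct σ : P ℓ n →ₐ[ℂ] P ℓ n).toLinearMap) := by
    refine ⟨fun τ => ?_, fun a g hg => ?_, fun p hp i k g hg => ?_⟩
    · simp only [Submodule.mem_comap, AlgHom.toLinearMap_apply]
      rw [sAct_mul]
      exact hc.orbit _
    · simp only [Submodule.mem_comap, AlgHom.toLinearMap_apply] at hg ⊢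
      rcases a with ⟨i, j⟩
      rw [sAct_pderiv]
      exact hc.deriv _ _ hg
    · simp only [Submodule.mem_comap, AlgHom.toLinearMap_apply] at hg ⊢
      rw [sAct_E]
      exact hc.polar p hp i k _ hg
  exact (sInf_le h : polMod f ≤ _) hv

/-- the character of the pieces -/
theorem piece_tr (h1 : S_POL1) (h2 : S_POL2) (h3 : S_TRV) (ℓ n d : ℕ) [NeZero ℓ] (hd : 3 ≤ d)
    (hn : d ≤ n) (r : Fin ℓ → ℕ) (σ : Equiv.Perm (Fin n)) :
    (∀ v ∈ piece (row ℓ (m21 n d)) r, sAct σ v ∈ piece (row ℓ (m21 n d)) r) ∧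
    FiniteDimensional ℂ (piece (row ℓ (m21 n d)) r) ∧
    ∀ φ : piece (row ℓ (m21 n d)) r →ₗ[ℂ] piece (row ℓ (m21 n d)) r,
      (∀ v, (φ v : P ℓ n) = sAct σ (v : P ℓ n)) →
      LinearMap.trace ℂ _ φ = tr d (∑ i, r i) (fun k => fix k σ) := by
  obtain ⟨_, e, he⟩ := h2 ℓ n d hd hn r
  obtain ⟨h4, h5, h6⟩ := h3 n d (∑ i, r i) σ hd hn
  have h7 := (h1 ℓ n).2.2.2.2.2.2
  refine ⟨?_, ?_, ?_⟩
  · intro v hv
    obtain ⟨w, hw⟩ := e.surjective ⟨v, hv⟩
    have h8 : (e w : P ℓ n) = v := by rw [hw]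
    rw [← h8, he, h7]
    have h9 : ((⟨rename σ w, h4 w w.2⟩ : Vh n d (∑ i, r i)) : MvPolynomial (Fin n) ℂ) =
      rename σ (w : MvPolynomial (Fin n) ℂ) := rfl
    rw [← h9, ← he]
    exact (e _).2
  · haveI := h5
    exact LinearEquiv.finiteDimensional e
  · intro φ hφ
    have h8 : LinearMap.trace ℂ _ (e.symm.conj φ) = LinearMap.trace ℂ _ φ :=
      LinearMap.trace_conj' φ e.symm
    rw [← h8]
    apply h6
    intro v
    have h9 : e (e.symm.conj φ v) = e ⟨rename σ v, h4 v v.2⟩ := by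
      rw [LinearEquiv.conj_apply_apply, LinearEquiv.apply_symm_apply]
      apply Subtype.ext
      rw [hφ, LinearEquiv.symm_symm, he, he, h7]
    exact congrArg Subtype.val (e.injective h9)

/-- the final assembly -/
theorem asm (h1 : S_POL1) (h2 : S_POL2) (h3 : S_TRV) (h4 : S_ALL) (ℓ n d : ℕ) [NeZero ℓ]
    (hd : 3 ≤ d) (hn : d ≤ n) :
    FiniteDimensional ℂ (polMod (row ℓ (m21 n d))) ∧
    (∀ g ∈ polMod (row ℓ (m21 n d)), ∀ r : Fin ℓ → ℕ,
      weightedHomogeneousComponent wt r g ∈ polMod (row ℓ (m21 n d))) ∧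
    (∀ (r : Fin ℓ → ℕ) (σ : Equiv.Perm (Fin n)),
      (∀ v ∈ piece (row ℓ (m21 n d)) r, sAct σ v ∈ piece (row ℓ (m21 n d)) r) ∧
      ∀ φ : piece (row ℓ (m21 n d)) r →ₗ[ℂ] piece (row ℓ (m21 n d)) r,
        (∀ v, (φ v : P ℓ n) = sAct σ (v : P ℓ n)) →
        LinearMap.trace ℂ _ φ =
          ∑ i ∈ range (d / 2 + 1), (coef d i (∑ k, r k) : ℂ) * chi i σ) ∧
    (∀ (q : Fin ℓ → ℂ) (σ : Equiv.Perm (Fin n)),
      (∀ g ∈ polMod (row ℓ (m21 n d)), dAct q σ g ∈ polMod (row ℓ (m21 n d))) ∧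
      ∀ φ : polMod (row ℓ (m21 n d)) →ₗ[ℂ] polMod (row ℓ (m21 n d)),
        (∀ v, (φ v : P ℓ n) = dAct q σ (v : P ℓ n)) →
        LinearMap.trace ℂ _ φ =
          ∑ i ∈ range (d / 2 + 1), (∑ j ∈ range (d + 1), (coef d i j : ℂ) * sch j q) *
            chi i σ) := by
  have hp := fun r σ => piece_tr h1 h2 h3 ℓ n d hd hn r σ
  have hc : ∀ g ∈ polMod (row ℓ (m21 n d)), ∀ r : Fin ℓ → ℕ,
      weightedHomogeneousComponent wt r g ∈ polMod (row ℓ (m21 n d)) :=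
    fun g hg r => (h2 ℓ n d hd hn r).1 g hg
  have hall := fun σ => h4 ℓ n d (polMod (row ℓ (m21 n d))) σ
    (fun j => tr d j (fun k => fix k σ)) hc (fun g hg => polMod_sAct _ σ hg)
    (fun r => (hp r σ).2.1)
    (by
      intro r hr
      obtain ⟨_, e, he⟩ := h2 ℓ n d hd hn r
      rw [Submodule.eq_bot_iff]
      intro x hx
      obtain ⟨w, hw⟩ := e.surjective ⟨x, hx⟩
      have h0 : (w : MvPolynomial (Fin n) ℂ) = 0 := by
        have h5 : Vh n d (∑ i, r i) = ⊥ := by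
          rw [Vh, Submodule.span_eq_bot]
          rintro g (⟨k, S, h6, h7, rfl⟩ | ⟨S, h6, rfl⟩) <;> omega
        have h6 : (w : MvPolynomial (Fin n) ℂ) ∈ (⊥ : Submodule ℂ (MvPolynomial (Fin n) ℂ)) :=
          h5.le w.2
        exact (Submodule.mem_bot ℂ).1 h6
      have h8 : (e w : P ℓ n) = x := by rw [hw]
      rw [← h8, he, h0, map_zero])
    (fun r φ hφ => (hp r σ).2.2 φ hφ)
  refine ⟨(hall 1).1, hc, fun r σ => ⟨(hp r σ).1, fun φ hφ => ?_⟩, fun q σ => ?_⟩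
  · rw [(hp r σ).2.2 φ hφ, ← form d _ _ hd]
    rfl
  · obtain ⟨h5, h6⟩ := (hall σ).2 q
    refine ⟨h5, fun φ hφ => ?_⟩
    rw [h6 φ hφ]
    simp only [Finset.sum_mul]
    rw [Finset.sum_comm]
    refine Finset.sum_congr rfl fun j _ => ?_
    rw [← form d j _ hd, Finset.mul_sum]
    refine Finset.sum_congr rfl fun i _ => ?_
    rw [chi]
    ring

end Pool.Agent.H89.PM
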