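import Mathlib

set_option autoImplicit false

/-!
# The polarization module of `m_{(2,1^{d-2})}`: definitions
-/

namespace Pool.Agent.H89.PM

open MvPolynomial Finset

/-- The polynomial ring `ℂ[X]`, `X = (x_{ij})`, `i ∈ Fin ℓ` (rows), `j ∈ Fin n` (columns). -/
abbrev P (ℓ n : ℕ) := MvPolynomial (Fin ℓ × Fin n) ℂ

variable {ℓ n : ℕ}

/-- The generalized polarization operator `E^{(p)}_{i,k} f = ∑_j x_{ij} ∂_{kj}^p f`. -/
noncomputable def E (p : ℕ) (i k : Fin ℓ) (f : P ℓ n) : P ℓ n :=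
  ∑ j : Fin n, X (i, j) * (pderiv (k, j))^[p] f

/-- The diagonal action of `𝔖_n`: `x_{ij} ↦ x_{i σ(j)}`. -/
noncomputable def sAct (σ : Equiv.Perm (Fin n)) : P ℓ n →ₐ[ℂ] P ℓ n :=
  rename (fun a => (a.1, σ a.2))

/-- `W` contains the `𝔖_n`-orbit of `f` and is closed under all partial derivatives and all
generalized polarization operators `E^{(p)}_{i,k}`, `p ≥ 1`. -/
structure Closed (f : P ℓ n) (W : Submodule ℂ (P ℓ n)) : Prop where
  orbit : ∀ σ : Equiv.Perm (Fin n), sAct σ f ∈ W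
  deriv : ∀ a : Fin ℓ × Fin n, ∀ g ∈ W, pderiv a g ∈ W
  polar : ∀ p : ℕ, 1 ≤ p → ∀ i k : Fin ℓ, ∀ g ∈ W, E p i k g ∈ W

/-- The polarization module `M_f`: the smallest such subspace. -/
noncomputable def polMod (f : P ℓ n) : Submodule ℂ (P ℓ n) := sInf {W | Closed f W}

/-- A symmetric function of `n` variables, written in the variables of the first row. -/
noncomputable def row (ℓ : ℕ) [NeZero ℓ] (F : MvPolynomial (Fin n) ℂ) : P ℓ n :=
  rename (fun j => ((0 : Fin ℓ), j)) F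

/-- The monomial symmetric polynomial `m_{(2,1^{d-2})}` in `n` variables: the sum of the
monomials `x_j^2 ∏_{b ∈ B} x_b` over all `j` and all `(d-2)`-element sets `B` with `j ∉ B`. -/
noncomputable def m21 (n d : ℕ) : MvPolynomial (Fin n) ℂ :=
  ∑ j : Fin n, ∑ B ∈ powersetCard (d - 2) (univ.erase j), X j ^ 2 * ∏ b ∈ B, X b

/-- The multidegree of the variable `x_{ij}` is the `i`-th unit vector. -/
def wt (a : Fin ℓ × Fin n) : Fin ℓ → ℕ := Pi.single a.1 1

/-- The part of multidegree `r` (degree `r i` in the `i`-th row) of the polarization module. -/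
noncomputable def piece (f : P ℓ n) (r : Fin ℓ → ℕ) : Submodule ℂ (P ℓ n) :=
  polMod f ⊓ weightedHomogeneousSubmodule ℂ wt r

/-- The number of the `k`-element subsets of `Fin n` which are mapped to themselves by `σ`: the
character of the permutation module on `k`-element sets, with Frobenius characteristic
`h_{n-k} h_k`. -/
noncomputable def fix (k : ℕ) (σ : Equiv.Perm (Fin n)) : ℂ :=
  (((powersetCard k univ).filter fun S : Finset (Fin n) => S.map σ.toEmbedding = S).card : ℂ)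

/-- The character of the Specht module of the partition `(n - i, i)`, `2 i ≤ n`, since
`s_{n-i,i} = h_{n-i} h_i - h_{n-i+1} h_{i-1}`. -/
noncomputable def chi (i : ℕ) (σ : Equiv.Perm (Fin n)) : ℂ :=
  fix i σ - if i = 0 then 0 else fix (i - 1) σ

/-- The coefficient of `s_j(q) s_{n-i,i}(w)` in the formula of Q1. -/
def coef (d i j : ℕ) : ℕ :=
  if i = 0 then
    (if j = 0 ∨ j = 1 ∨ j = d then 1 else if 2 ≤ j ∧ j ≤ d - 1 then 2 else 0)
  else if i < d / 2 then
    (if j = i ∨ j = d - i then 1 else if i + 1 ≤ j ∧ j ≤ d - i - 1 then 2 else 0)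
  else if i = d / 2 then (if d / 2 ≤ j ∧ j ≤ d - d / 2 then 1 else 0)
  else 0

/-- The action of the pair of the diagonal matrix `q` and the permutation `σ`:
`x_{ij} ↦ q_i x_{i σ(j)}`. -/
noncomputable def dAct (q : Fin ℓ → ℂ) (σ : Equiv.Perm (Fin n)) : P ℓ n →ₐ[ℂ] P ℓ n :=
  aeval (fun a => C (q a.1) * X (a.1, σ a.2))

/-- The Schur polynomial of the partition `(j)` (the complete homogeneous symmetric polynomial) at
the point `q`. -/
noncomputable def sch (j : ℕ) (q : Fin ℓ → ℂ) : ℂ :=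
  ∑ r ∈ Finset.piAntidiag (univ : Finset (Fin ℓ)) j, ∏ i, q i ^ r i

/-! ### The one row picture -/

/-- `x_J = ∏_{b ∈ J} x_b` -/
noncomputable def xm (J : Finset (Fin n)) : MvPolynomial (Fin n) ℂ := ∏ b ∈ J, X b

/-- `∑_{a ∈ S} x_a` -/
noncomputable def xs (S : Finset (Fin n)) : MvPolynomial (Fin n) ℂ := ∑ a ∈ S, X a

/-- `e_k` of the variables outside `S` -/
noncomputable def ee (k : ℕ) (S : Finset (Fin n)) : MvPolynomial (Fin n) ℂ :=
  ∑ J ∈ powersetCard k Sᶜ, xm J

/-- `m_{(2,1^{k-1})}` of the variables outside `S` (it is `0` for `k = 0`) -/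
noncomputable def mm (k : ℕ) (S : Finset (Fin n)) : MvPolynomial (Fin n) ℂ :=
  ∑ J ∈ powersetCard k Sᶜ, xm J * xs J

/-- The derivative of `m_{(2,1^{d-2})}` with respect to the variables in `S`, if
`|S| + k + 1 = d`. -/
noncomputable def gg (k : ℕ) (S : Finset (Fin n)) : MvPolynomial (Fin n) ℂ :=
  2 * xs S * ee k S + mm k S

/-- The part of degree `j` of the polarization module for one row. -/
noncomputable def Vh (n d j : ℕ) : Submodule ℂ (MvPolynomial (Fin n) ℂ) :=
  Submodule.span ℂ ({g | ∃ k S, S.card + k + 1 = d ∧ k + 1 = j ∧ g = gg k S} ∪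
    {g | ∃ S : Finset (Fin n), S.card + j + 1 = d ∧ g = ee j S})

/-- functions on the `k`-element subsets of `Fin n` -/
abbrev U (n k : ℕ) := {S : Finset (Fin n) // S.card = k} → ℂ

/-- The disjointness map: `(D t j κ)(K) = ∑_{T ∩ K = ∅} κ(T)`. -/
noncomputable def D (t j : ℕ) : U n t →ₗ[ℂ] U n j where
  toFun κ := fun K => ∑ T, if Disjoint T.1 K.1 then κ T else 0
  map_add' κ μ := by
    funext K
    simp only [Pi.add_apply]
    rw [← Finset.sum_add_distrib]
    refine Finset.sum_congr rfl fun T _ => ?_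
    split_ifs <;> simp
  map_smul' c κ := by
    funext K
    simp only [Pi.smul_apply, smul_eq_mul, RingHom.id_apply]
    rw [Finset.mul_sum]
    refine Finset.sum_congr rfl fun T _ => ?_
    split_ifs <;> simp

/-- The action of `σ` on functions on `k`-element subsets: `(σ κ)(S) = κ(σ⁻¹ S)`. -/
noncomputable def uAct (k : ℕ) (σ : Equiv.Perm (Fin n)) : U n k →ₗ[ℂ] U n k where
  toFun κ := fun S => κ ⟨S.1.map σ⁻¹.toEmbedding, by rw [card_map, S.2]⟩
  map_add' κ μ := rfl
  map_smul' c κ := rfl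

/-- `κ ↦ ∑_S κ(S) x_S` -/
noncomputable def pl (k : ℕ) : U n k →ₗ[ℂ] MvPolynomial (Fin n) ℂ where
  toFun κ := ∑ S, κ S • xm S.1
  map_add' κ μ := by
    simp only [Pi.add_apply, add_smul]
    rw [Finset.sum_add_distrib]
  map_smul' c κ := by
    simp only [Pi.smul_apply, smul_eq_mul, mul_smul, RingHom.id_apply]
    rw [Finset.smul_sum]

/-- `κ ↦ ∑_S κ(S) x_S (∑_{a ∈ S} x_a)` -/
noncomputable def ps (k : ℕ) : U n k →ₗ[ℂ] MvPolynomial (Fin n) ℂ where
  toFun κ := ∑ S, κ S • (xm S.1 * xs S.1)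
  map_add' κ μ := by
    simp only [Pi.add_apply, add_smul]
    rw [Finset.sum_add_distrib]
  map_smul' c κ := by
    simp only [Pi.smul_apply, smul_eq_mul, mul_smul, RingHom.id_apply]
    rw [Finset.smul_sum]

/-- `κ ↦ ∑_S κ(S) gg k S` -/
noncomputable def ph (s k : ℕ) : U n s →ₗ[ℂ] MvPolynomial (Fin n) ℂ where
  toFun κ := ∑ S, κ S • gg k S.1
  map_add' κ μ := by
    simp only [Pi.add_apply, add_smul]
    rw [Finset.sum_add_distrib]
  map_smul' c κ := by
    simp only [Pi.smul_apply, smul_eq_mul, mul_smul, RingHom.id_apply]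
    rw [Finset.smul_sum]

/-- `x_j ↦ ∑_i x_{ij}` -/
noncomputable def Th (ℓ n : ℕ) : MvPolynomial (Fin n) ℂ →ₐ[ℂ] P ℓ n :=
  aeval (fun j => ∑ i : Fin ℓ, X (i, j))

/-- The polarization of `g` of multidegree `r`. -/
noncomputable def cc (r : Fin ℓ → ℕ) : MvPolynomial (Fin n) ℂ →ₗ[ℂ] P ℓ n :=
  (weightedHomogeneousComponent wt r) ∘ₗ (Th ℓ n).toLinearMap

/-- the trace on `Vh n d j`, with `F k = fix k σ` -/
noncomputable def tr (d j : ℕ) (F : ℕ → ℂ) : ℂ :=
  if d < j then 0 else if j = 1 then F 1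
  else F (min j (d - j)) + if min j (d - j) = 0 then 0 else F (min j (d - j) - 1)

end Pool.Agent.H89.PM
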