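import Pool.Agent.H89.PM.Stm

set_option autoImplicit false

/-!
# Piece DISJ: the disjointness map (helper72)
-/

namespace Pool.Agent.H89.PM

open Finset

namespace Disj

variable {n : ℕ}

/-- the sum over the sets disjoint from `K` -/
noncomputable def z (t : ℕ) (κ : U n t) (K : Finset (Fin n)) : ℂ :=
  ∑ T, if Disjoint T.1 K then κ T else 0

/-- the sum over the sets containing `I` -/
noncomputable def w (t : ℕ) (κ : U n t) (I : Finset (Fin n)) : ℂ :=
  ∑ T, if I ⊆ T.1 then κ T else 0

lemma D_apply (t j : ℕ) (κ : U n t) (K : {S : Finset (Fin n) // S.card = j}) :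
    D t j κ K = z t κ K.1 := rfl

lemma z_step (t : ℕ) (κ : U n t) (K : Finset (Fin n)) :
    ∑ x ∈ Kᶜ, z t κ (insert x K) = ((n - t - K.card : ℤ) : ℂ) * z t κ K := by
  unfold z
  rw [Finset.sum_comm, Finset.mul_sum]
  refine Finset.sum_congr rfl fun T _ => ?_
  by_cases hT : Disjoint T.1 K
  · have h1 : ∀ x ∈ Kᶜ, (if Disjoint T.1 (insert x K) then κ T else 0) =
        if x ∈ T.1ᶜ then κ T else 0 := by
      intro x _
      have : Disjoint T.1 (insert x K) ↔ x ∈ T.1ᶜ := by
        rw [Finset.disjoint_insert_right, Finset.mem_compl]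
        exact ⟨fun h => h.1, fun h => ⟨h, hT⟩⟩
      simp only [this]
    rw [Finset.sum_congr rfl h1, if_pos hT, ← Finset.sum_filter, Finset.sum_const, nsmul_eq_mul]
    congr 1
    have h2 : (Kᶜ.filter fun x => x ∈ T.1ᶜ) = (T.1 ∪ K)ᶜ := by
      ext x
      simp only [mem_filter, mem_compl, mem_union, not_or]
      tauto
    rw [h2, Finset.card_compl, Finset.card_union_of_disjoint hT, T.2, Fintype.card_fin]
    have h3 : t + K.card ≤ n := by
      have := Finset.card_le_univ (T.1 ∪ K)
      rwa [Finset.card_union_of_disjoint hT, T.2, Fintype.card_fin] at this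
    rw [← Int.cast_natCast, Nat.cast_sub h3]
    push_cast
    ring
  · rw [if_neg hT, mul_zero]
    refine Finset.sum_eq_zero fun x _ => ?_
    rw [if_neg]
    intro h
    exact hT (Finset.disjoint_of_subset_right (Finset.subset_insert x K) h)

/-- (Z) -/
lemma z_zero (t j : ℕ) (h : t + j ≤ n) (κ : U n t) (h0 : D t j κ = 0) :
    ∀ m, m ≤ j → ∀ K : Finset (Fin n), K.card = m → z t κ K = 0 := by
  intro m hm
  obtain ⟨i, rfl⟩ : ∃ i, j = m + i := ⟨j - m, by omega⟩
  clear hm
  induction i generalizing m with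
  | zero =>
    intro K hK
    have := congrFun h0 ⟨K, by simpa using hK⟩
    rwa [D_apply] at this
  | succ i ih =>
    intro K hK
    have h1 := z_step t κ K
    have h2 : ∑ x ∈ Kᶜ, z t κ (insert x K) = 0 := by
      refine Finset.sum_eq_zero fun x hx => ?_
      have e : m + (i + 1) = (m + 1) + i := by ring
      have h' : t + (m + 1 + i) ≤ n := by omega
      have h0' : D t (m + 1 + i) κ = 0 := by
        rw [← e]; exact h0
      refine ih (m + 1) h' h0' (insert x K) ?_
      rw [Finset.card_insert_of_notMem (Finset.mem_compl.1 hx), hK]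
    rw [h2] at h1
    have h3 : ((n - t - K.card : ℤ) : ℂ) ≠ 0 := by
      rw [Int.cast_ne_zero, hK]
      omega
    rcases mul_eq_zero.1 h1.symm with h4 | h4
    · exact absurd h4 h3
    · exact h4

lemma alt (A : Finset (Fin n)) :
    ∑ I ∈ A.powerset, (-1 : ℂ) ^ I.card = if A = ∅ then 1 else 0 := by
  have := Finset.sum_powerset_neg_one_pow_card (x := A)
  have h2 := congrArg (Int.cast : ℤ → ℂ) this
  push_cast at h2
  rw [h2]

/-- (IE) -/
lemma ie (t : ℕ) (κ : U n t) (I : Finset (Fin n)) :
    w t κ I = ∑ K ∈ I.powerset, (-1 : ℂ) ^ K.card * z t κ K := by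
  unfold w z
  simp only [Finset.mul_sum]
  rw [Finset.sum_comm]
  refine Finset.sum_congr rfl fun T _ => ?_
  have h1 : ∀ K ∈ I.powerset, (-1 : ℂ) ^ K.card * (if Disjoint T.1 K then κ T else 0) =
      if Disjoint T.1 K then (-1 : ℂ) ^ K.card * κ T else 0 := by
    intro K _
    split_ifs <;> simp
  rw [Finset.sum_congr rfl h1, ← Finset.sum_filter]
  have h2 : (I.powerset.filter fun K => Disjoint T.1 K) = (I \ T.1).powerset := by
    ext K
    simp only [mem_filter, mem_powerset]
    rw [Finset.subset_sdiff, disjoint_comm]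
  rw [h2, ← Finset.sum_mul, alt]
  by_cases h : I ⊆ T.1
  · rw [if_pos h, if_pos (Finset.sdiff_eq_empty_iff_subset.2 h), one_mul]
  · rw [if_neg h, if_neg (fun h' => h (Finset.sdiff_eq_empty_iff_subset.1 h')), zero_mul]

/-- (IE') -/
lemma ie' (t : ℕ) (κ : U n t) (K : Finset (Fin n)) :
    z t κ K = ∑ I ∈ K.powerset, (-1 : ℂ) ^ I.card * w t κ I := by
  unfold w z
  simp only [Finset.mul_sum]
  rw [Finset.sum_comm]
  refine Finset.sum_congr rfl fun T _ => ?_
  have h1 : ∀ I ∈ K.powerset, (-1 : ℂ) ^ I.card * (if I ⊆ T.1 then κ T else 0) =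
      if I ⊆ T.1 then (-1 : ℂ) ^ I.card * κ T else 0 := by
    intro I _
    split_ifs <;> simp
  rw [Finset.sum_congr rfl h1, ← Finset.sum_filter]
  have h2 : (K.powerset.filter fun I => I ⊆ T.1) = (K ∩ T.1).powerset := by
    ext I
    simp only [mem_filter, mem_powerset]
    rw [Finset.subset_inter_iff]
  rw [h2, ← Finset.sum_mul, alt]
  by_cases h : Disjoint T.1 K
  · rw [if_pos h, if_pos (Finset.disjoint_iff_inter_eq_empty.1 h.symm), one_mul]
  · rw [if_neg h, if_neg (fun h' => h (Finset.disjoint_iff_inter_eq_empty.2 h').symm), zero_mul]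

lemma w_self (t : ℕ) (κ : U n t) (S : {S : Finset (Fin n) // S.card = t}) :
    w t κ S.1 = κ S := by
  unfold w
  rw [Finset.sum_eq_single S]
  · rw [if_pos (Finset.Subset.refl _)]
  · intro T _ hT
    rw [if_neg]
    intro h
    exact hT (Subtype.ext (Finset.eq_of_subset_of_card_le h (by rw [S.2, T.2])).symm)
  · intro h
    exact absurd (Finset.mem_univ _) h

/-- the transpose -/
lemma transpose (t j : ℕ) (κ : U n t) (ν : U n j) :
    ∑ K, D t j κ K * ν K = ∑ T, κ T * D j t ν T := by
  simp only [D_apply, z, Finset.sum_mul, Finset.mul_sum]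
  rw [Finset.sum_comm]
  refine Finset.sum_congr rfl fun T _ => Finset.sum_congr rfl fun K _ => ?_
  by_cases h : Disjoint T.1 K.1
  · rw [if_pos h, if_pos h.symm]
  · rw [if_neg h, if_neg (fun h' => h h'.symm), zero_mul, mul_zero]

lemma functional (j : ℕ) (f : U n j →ₗ[ℂ] ℂ) (x : U n j) :
    f x = ∑ K, x K * f (Pi.single K 1) := by
  rw [LinearMap.pi_apply_eq_sum_univ f x]
  refine Finset.sum_congr rfl fun K _ => ?_
  rw [smul_eq_mul]
  congr 2
  funext i
  rw [Pi.single_apply]
  by_cases h : K = i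
  · subst h; simp
  · rw [if_neg h, if_neg (fun h' => h h'.symm)]

end Disj

open Disj

theorem dinj : S_DINJ := by
  intro n t j htj hn
  rw [injective_iff_map_eq_zero]
  intro κ h0
  funext S
  have hz := z_zero t j hn κ h0
  rw [← w_self t κ S, ie]
  refine Finset.sum_eq_zero fun K hK => ?_
  rw [hz K.card ?_ K rfl, mul_zero]
  have := Finset.card_le_card (Finset.mem_powerset.1 hK)
  rw [S.2] at this
  omega

theorem dsur : S_DSUR := by
  intro n t j hjt hn
  rw [← LinearMap.range_eq_top]
  by_contra hne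
  obtain ⟨f, hf, hle⟩ := Submodule.exists_le_ker_of_lt_top _ (lt_top_iff_ne_top.2 hne)
  apply hf
  have hinj := dinj n j t hjt (by omega)
  set ν : U n j := fun K => f (Pi.single K 1) with hν
  have h1 : D j t ν = 0 := by
    funext T
    have h2 : f (D t j (Pi.single T 1)) = 0 := hle ⟨_, rfl⟩
    rw [functional] at h2
    have h3 := transpose t j (Pi.single T 1) ν
    rw [hν] at h3
    simp only at h3
    rw [h2] at h3
    rw [Finset.sum_eq_single T] at h3
    · simpa using h3.symm
    · intro T' _ hT'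
      rw [Pi.single_eq_of_ne hT', zero_mul]
    · intro h
      exact absurd (Finset.mem_univ _) h
  have h4 : ν = 0 := hinj (by rw [h1, map_zero])
  ext K
  have := congrFun h4 K
  simpa [hν] using this

theorem deig : S_DEIG := by
  intro n j hj hn κ h0
  have hz := z_zero j (j - 1) (by omega) κ h0
  have hw : ∀ I : Finset (Fin n), I.card ≤ j - 1 → w j κ I = 0 := by
    intro I hI
    rw [ie]
    refine Finset.sum_eq_zero fun K hK => ?_
    rw [hz K.card ?_ K rfl, mul_zero]
    have := Finset.card_le_card (Finset.mem_powerset.1 hK)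
    omega
  funext K
  rw [D_apply, ie', Pi.smul_apply, smul_eq_mul]
  rw [Finset.sum_eq_single K.1]
  · rw [K.2, w_self]
  · intro I hI hne
    rw [hw I, mul_zero]
    have h1 := Finset.card_lt_card ((Finset.mem_powerset.1 hI).ssubset_of_ne hne)
    rw [K.2] at h1
    omega
  · intro h
    exact absurd (Finset.mem_powerset.2 (Finset.Subset.refl _)) h

theorem ddec : S_DDEC := by
  intro n j hj μ
  suffices h : LinearMap.range (D (n := n) (j - 1) j) ⊔ LinearMap.ker (D (n := n) j (j - 1)) = ⊤ by
    have : μ ∈ LinearMap.range (D (n := n) (j - 1) j) ⊔ LinearMap.ker (D (n := n) j (j - 1)) := by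
      rw [h]; trivial
    obtain ⟨y, ⟨p, rfl⟩, κ, hκ, he⟩ := Submodule.mem_sup.1 this
    exact ⟨p, κ, hκ, he.symm⟩
  by_contra hne
  obtain ⟨f, hf, hle⟩ := Submodule.exists_le_ker_of_lt_top _ (lt_top_iff_ne_top.2 hne)
  apply hf
  set ν : U n j := fun K => f (Pi.single K 1) with hν
  have h1 : D j (j - 1) ν = 0 := by
    funext T
    have h2 : f (D (j - 1) j (Pi.single T 1)) = 0 :=
      hle (Submodule.mem_sup_left ⟨_, rfl⟩)
    rw [functional] at h2
    have h3 := transpose (j - 1) j (Pi.single T 1) ν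
    rw [hν] at h3
    simp only at h3
    rw [h2] at h3
    rw [Finset.sum_eq_single T] at h3
    · simpa using h3.symm
    · intro T' _ hT'
      rw [Pi.single_eq_of_ne hT', zero_mul]
    · intro h
      exact absurd (Finset.mem_univ _) h
  have h5 : D j (j - 1) (fun K => (starRingEnd ℂ) (ν K)) = 0 := by
    funext T
    have := congrArg (starRingEnd ℂ) (congrFun h1 T)
    rw [D_apply] at this ⊢
    unfold z at this ⊢
    rw [map_sum] at this
    simp only [Pi.zero_apply, map_zero] at this ⊢
    refine Eq.trans ?_ this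
    refine Finset.sum_congr rfl fun K _ => ?_
    split_ifs <;> simp
  have h6 : f (fun K => (starRingEnd ℂ) (ν K)) = 0 :=
    hle (Submodule.mem_sup_right h5)
  rw [functional] at h6
  have h7 : ∑ K, ‖ν K‖ ^ 2 = 0 := by
    have h8 : ((∑ K, ‖ν K‖ ^ 2 : ℝ) : ℂ) = 0 := by
      rw [← h6]
      push_cast
      refine Finset.sum_congr rfl fun K _ => ?_
      rw [← Complex.conj_mul']
    exact_mod_cast h8
  rw [Finset.sum_eq_zero_iff_of_nonneg (fun _ _ => by positivity)] at h7
  ext K
  have h9 := h7 K (Finset.mem_univ _)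
  have h10 : ν K = 0 := by
    have := pow_eq_zero_iff (two_ne_zero) |>.1 h9
    exact norm_eq_zero.1 this
  simpa [hν] using h10

end Pool.Agent.H89.PM
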