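import Pool.Agent.H89.PM.Stm

set_option autoImplicit false

namespace Pool.Agent.H89.PM

open MvPolynomial Finset

lemma tr_of {A M : Type*} [AddCommGroup A] [Module ℂ A] [FiniteDimensional ℂ A]
    [AddCommGroup M] [Module ℂ M] (V : Submodule ℂ M) (L : A →ₗ[ℂ] M)
    (hL : Function.Injective L) (hr : LinearMap.range L = V) (R : M → M) (ρ : A →ₗ[ℂ] A)
    (h : ∀ x, R (L x) = L (ρ x)) :
    (∀ v ∈ V, R v ∈ V) ∧ FiniteDimensional ℂ V ∧
      ∀ φ : V →ₗ[ℂ] V, (∀ v, (φ v : M) = R (v : M)) →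
        LinearMap.trace ℂ _ φ = LinearMap.trace ℂ _ ρ := by
  subst hr
  refine ⟨?_, inferInstance, ?_⟩
  · rintro v ⟨x, rfl⟩
    rw [h]
    exact ⟨_, rfl⟩
  · intro φ hφ
    have hc : (LinearEquiv.ofInjective L hL).conj ρ = φ := by
      apply LinearMap.ext
      intro v
      obtain ⟨x, rfl⟩ := (LinearEquiv.ofInjective L hL).surjective v
      rw [LinearEquiv.conj_apply_apply, LinearEquiv.symm_apply_apply]
      apply Subtype.ext
      rw [hφ, LinearEquiv.ofInjective_apply, LinearEquiv.ofInjective_apply, h]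
    rw [← hc, LinearMap.trace_conj']

lemma mem_ee {n d j t : ℕ} (htd : t + j + 1 = d) (hS : S_SUM) (κ : U n t) :
    pl j (D t j κ) ∈ Vh n d j := by
  rw [← (hS n t j).1 κ]
  refine Submodule.sum_mem _ fun T _ => Submodule.smul_mem _ _ (Submodule.subset_span (Or.inr ?_))
  exact ⟨T.1, by rw [T.2]; exact htd, rfl⟩

lemma mem_gg {n d k s : ℕ} (hsd : s + k + 1 = d) (q : U n s) :
    ph s k q ∈ Vh n d (k + 1) := by
  show (∑ T, q T • gg k T.1) ∈ _
  refine Submodule.sum_mem _ fun T _ => Submodule.smul_mem _ _ (Submodule.subset_span (Or.inl ?_))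
  exact ⟨k, T.1, by rw [T.2]; exact hsd, rfl, rfl⟩

lemma pl_mem {n d j t : ℕ} (hn : d ≤ n) (htd : t + j + 1 = d) (hjt : j ≤ t) (hS : S_SUM)
    (hD : S_DSUR) (p : U n j) : pl j p ∈ Vh n d j := by
  obtain ⟨κ, rfl⟩ := hD n t j hjt (by omega) p
  exact mem_ee htd hS κ

lemma ph_eq {n : ℕ} (hS : S_SUM) (s k : ℕ) (q : U n s) :
    ∃ p : U n (k + 1), ph s k q = pl (k + 1) p + ps k (D s k q) := by
  choose p hp using (hS n s k).2.2.1
  refine ⟨∑ T, (2 * q T) • p T.1, ?_⟩
  rw [← (hS n s k).2.1 q, map_sum]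
  show ∑ T, q T • gg k T.1 = _
  rw [← Finset.sum_add_distrib]
  refine Finset.sum_congr rfl fun T _ => ?_
  rw [LinearMap.map_smul, ← hp, gg, smul_add, mul_smul, mul_assoc, two_mul, two_smul, smul_add]

lemma ph_single {n : ℕ} (s k : ℕ) (S : Finset (Fin n)) (hS : S.card = s) :
    ph s k (Pi.single ⟨S, hS⟩ 1) = gg k S := by
  show ∑ T, (Pi.single (⟨S, hS⟩ : {S : Finset (Fin n) // S.card = s}) (1 : ℂ) :
    U n s) T • gg k T.1 = _
  rw [Finset.sum_eq_single ⟨S, hS⟩]
  · simp
  · intro T _ hT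
    rw [Pi.single_eq_of_ne hT, zero_smul]
  · intro h
    exact absurd (Finset.mem_univ _) h

lemma ee_single {n : ℕ} (hS : S_SUM) (t j : ℕ) (S : Finset (Fin n)) (hc : S.card = t) :
    pl j (D t j (Pi.single ⟨S, hc⟩ 1)) = ee j S := by
  rw [← (hS n t j).1, Finset.sum_eq_single ⟨S, hc⟩]
  · simp
  · intro T _ hT
    rw [Pi.single_eq_of_ne hT, zero_smul]
  · intro h
    exact absurd (Finset.mem_univ _) h

lemma mm_zero {n : ℕ} (S : Finset (Fin n)) : mm 0 S = 0 := by
  simp [mm, xs]

/-- all squarefree polynomials of degree `j` are in `Vh n d j`, `2 ≤ 2 j ≤ d` -/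
lemma pl_mem' {n d k : ℕ} (hn : d ≤ n) (hkd : 2 * (k + 1) ≤ d) (hS : S_SUM)
    (hD : S_DSUR) (hE : S_DEIG) (hC : S_DDEC) (hT : S_STAR) (p : U n (k + 1)) :
    pl (k + 1) p ∈ Vh n d (k + 1) := by
  by_cases h : 2 * (k + 1) = d
  · -- the middle degree
    have hee : ∀ κ : U n k, pl (k + 1) (D k (k + 1) κ) ∈ Vh n d (k + 1) :=
      fun κ => mem_ee (by omega) hS κ
    have hee' : ∀ S : Finset (Fin n), S.card = k → ee (k + 1) S ∈ Vh n d (k + 1) := by
      intro S hc
      rw [← ee_single hS k (k + 1) S hc]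
      exact hee _
    have hker : ∀ κ : U n (k + 1), D (k + 1) k κ = 0 → pl (k + 1) κ ∈ Vh n d (k + 1) := by
      intro κ hκ
      have h1 : ph (k + 1) k κ ∈ Vh n d (k + 1) := mem_gg (by omega) κ
      have h2 : ph (k + 1) k κ = ∑ T, (2 * κ T) • (xs T.1 * ee k T.1) := by
        have h3 : ∑ T, κ T • mm k T.1 = 0 := by
          rw [(hS n (k + 1) k).2.1 κ, hκ, map_zero]
        show ∑ T, κ T • gg k T.1 = _
        rw [← add_zero (∑ T, (2 * κ T) • (xs T.1 * ee k T.1)), ← h3, ← Finset.sum_add_distrib]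
        refine Finset.sum_congr rfl fun T _ => ?_
        rw [gg, smul_add, mul_assoc, two_mul, smul_add, ← add_smul, two_mul]
      have h4 : ∑ T, (2 * κ T) • ((∑ i ∈ T.1, ee (k + 1) (T.1.erase i)) -
          ((k + 1 : ℕ) : ℂ) • ee (k + 1) T.1) ∈ Vh n d (k + 1) := by
        have h5 : ph (k + 1) k κ = ∑ T, (2 * κ T) • ((∑ i ∈ T.1, ee (k + 1) (T.1.erase i)) -
          ((k + 1 : ℕ) : ℂ) • ee (k + 1) T.1) := by
          rw [h2]
          refine Finset.sum_congr rfl fun T _ => ?_
          rw [hT n k T.1, T.2, add_sub_cancel_left]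
        rw [← h5]
        exact h1
      have h6 : ∑ T, (2 * κ T) • (∑ i ∈ T.1, ee (k + 1) (T.1.erase i)) ∈ Vh n d (k + 1) := by
        refine Submodule.sum_mem _ fun T _ => Submodule.smul_mem _ _
          (Submodule.sum_mem _ fun i hi => hee' _ ?_)
        rw [card_erase_of_mem hi, T.2]
        rfl
      have h7 : ∑ T, (2 * κ T) • (((k + 1 : ℕ) : ℂ) • ee (k + 1) T.1) ∈ Vh n d (k + 1) := by
        have h8 := Submodule.sub_mem _ h6 h4
        rw [← Finset.sum_sub_distrib] at h8
        convert h8 using 2 with T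
        rw [← smul_sub, sub_sub_cancel]
      have h9 : ∑ T, κ T • ee (k + 1) T.1 ∈ Vh n d (k + 1) := by
        have hne : (2 * ((k + 1 : ℕ) : ℂ)) ≠ 0 := by
          refine mul_ne_zero two_ne_zero ?_
          exact_mod_cast Nat.succ_ne_zero k
        have h10 := Submodule.smul_mem _ (2 * ((k + 1 : ℕ) : ℂ))⁻¹ h7
        rw [Finset.smul_sum] at h10
        convert h10 using 2 with T
        rw [smul_smul, smul_smul]
        congr 1
        field_simp
      rw [(hS n (k + 1) (k + 1)).1 κ, hE n (k + 1) (by omega) (by omega) κ hκ,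
        LinearMap.map_smul] at h9
      have h11 := Submodule.smul_mem _ ((-1 : ℂ) ^ (k + 1)) h9
      rw [smul_smul, ← mul_pow, neg_one_mul, neg_neg, one_pow, one_smul] at h11
      exact h11
    obtain ⟨p', κ, hκ, rfl⟩ := hC n (k + 1) (by omega) p
    rw [map_add]
    exact Submodule.add_mem _ (hee p') (hker κ hκ)
  · exact pl_mem (t := d - (k + 1) - 1) hn (by omega) (by omega) hS hD p

theorem trv (hI : S_DINJ) (hD : S_DSUR) (hE : S_DEIG) (hC : S_DDEC) (hT : S_STAR) (hJ : S_INJ)
    (hS : S_SUM) (hQ : S_EQV) (hU : S_TRU) : S_TRV := by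
  intro n d j σ hd hn
  rcases Nat.lt_or_ge d j with hj | hj
  · -- zero
    have h0 : Vh n d j = ⊥ := by
      rw [Vh, Submodule.span_eq_bot]
      rintro g (⟨k, S, h1, h2, rfl⟩ | ⟨S, h1, rfl⟩) <;> omega
    have hs : Subsingleton (Vh n d j) := by
      rw [h0]; infer_instance
    refine ⟨?_, ?_, ?_⟩
    · intro v hv
      rw [h0, Submodule.mem_bot] at hv ⊢
      rw [hv, map_zero]
    · rw [h0]; infer_instance
    · intro φ _
      have : φ = 0 := by
        apply LinearMap.ext
        intro v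
        exact Subsingleton.elim _ _
      rw [this, map_zero, tr, if_pos hj]
  rcases Nat.lt_or_ge j 2 with hj2 | hj2
  · -- degrees 0 and 1
    have hr : LinearMap.range (pl (n := n) j) = Vh n d j := by
      apply le_antisymm
      · rintro _ ⟨p, rfl⟩
        exact pl_mem (t := d - 1 - j) hn (by omega) (by omega) hS hD p
      · rw [Vh, Submodule.span_le]
        rintro g (⟨k, S, h1, h2, rfl⟩ | ⟨S, h1, rfl⟩)
        · obtain rfl : k = 0 := by omega
          obtain rfl : j = 1 := by omega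
          obtain ⟨p, hp⟩ := (hS n 0 0).2.2.1 S
          refine ⟨(2 : ℂ) • p, ?_⟩
          rw [LinearMap.map_smul, gg, mm_zero, add_zero, mul_assoc, hp, two_smul, two_mul]
        · obtain ⟨p, hp⟩ := (hS n 0 j).2.2.2 S
          exact ⟨p, hp.symm⟩
    obtain ⟨h1, h2, h3⟩ := tr_of (Vh n d j) (pl j) (hJ n j).1 hr
      (fun v => rename σ v) (uAct j σ) (fun κ => (hQ n j 0 σ κ).1)
    refine ⟨h1, h2, fun φ hφ => ?_⟩
    rw [h3 φ hφ, hU, tr, if_neg (by omega)]
    interval_cases j
    · simp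
    · simp
  -- j = k + 1
  obtain ⟨k, rfl⟩ : ∃ k, j = k + 1 := ⟨j - 1, by omega⟩
  rcases Nat.lt_or_ge d (2 * (k + 1)) with h2j | h2j
  · rcases Nat.lt_or_ge (k + 1) d with hjd | hjd
    · -- d < 2 j, j < d
      obtain ⟨u, hu⟩ : ∃ u, d = (u + 1) + (k + 1) := ⟨d - k - 2, by omega⟩
      let L : (U n u × U n (u + 1)) →ₗ[ℂ] MvPolynomial (Fin n) ℂ :=
        ((pl (k + 1)) ∘ₗ (D u (k + 1))).coprod (ph (u + 1) k)
      have hLa : ∀ p q, L (p, q) = pl (k + 1) (D u (k + 1) p) + ph (u + 1) k q := fun p q => rfl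
      have hr : LinearMap.range L = Vh n d (k + 1) := by
        apply le_antisymm
        · rintro _ ⟨⟨p, q⟩, rfl⟩
          rw [hLa]
          exact Submodule.add_mem _ (mem_ee (by omega) hS p) (mem_gg (by omega) q)
        · rw [Vh, Submodule.span_le]
          rintro g (⟨k', S, h1, h2, rfl⟩ | ⟨S, h1, rfl⟩)
          · obtain rfl : k' = k := by omega
            have hc : S.card = u + 1 := by omega
            refine ⟨(0, Pi.single ⟨S, hc⟩ 1), ?_⟩
            rw [hLa, map_zero, map_zero, zero_add, ph_single]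
          · have hc : S.card = u := by omega
            refine ⟨(Pi.single ⟨S, hc⟩ 1, 0), ?_⟩
            rw [hLa, map_zero, add_zero, ee_single hS]
      have hinj : Function.Injective L := by
        rw [← LinearMap.ker_eq_bot, LinearMap.ker_eq_bot']
        rintro ⟨p, q⟩ h
        rw [hLa] at h
        obtain ⟨p', hp'⟩ := ph_eq hS (u + 1) k q
        rw [hp', ← add_assoc, ← map_add, add_comm] at h
        have h1 := (hJ n k).2 (by omega) _ _ h
        have hq : q = 0 := hI n (u + 1) k (by omega) (by omega) (by rw [h1, map_zero])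
        rw [h1, map_zero, zero_add, map_add] at h
        rw [h1, map_zero, add_zero, hq, map_zero] at hp'
        rw [← hp', add_zero] at h
        subst hq
        have h3 : D u (k + 1) p = 0 := (hJ n (k + 1)).1 (by rw [h, map_zero])
        have hp : p = 0 := hI n u (k + 1) (by omega) (by omega) (by rw [h3, map_zero])
        rw [hp]
        rfl
      obtain ⟨h1, h2, h3⟩ := tr_of (Vh n d (k + 1)) L hinj hr
        (fun v => rename σ v) ((uAct u σ).prodMap (uAct (u + 1) σ)) (by
          rintro ⟨p, q⟩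
          show rename σ (L (p, q)) = L (uAct u σ p, uAct (u + 1) σ q)
          rw [hLa, hLa, map_add, (hQ n (u + 1) k σ q).2.2.1, (hQ n (k + 1) 0 σ _).1,
            ← (hQ n u (k + 1) σ p).2.2.2])
      refine ⟨h1, h2, fun φ hφ => ?_⟩
      rw [h3 φ hφ, LinearMap.trace_prodMap', hU, hU, tr, if_neg (by omega), if_neg (by omega)]
      have hm : min (k + 1) (d - (k + 1)) = u + 1 := by omega
      rw [hm, if_neg (by omega)]
      simp [add_comm]
    · -- j = d
      obtain rfl : d = k + 1 := by omega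
      have hr : LinearMap.range (ph (n := n) 0 k) = Vh n (k + 1) (k + 1) := by
        apply le_antisymm
        · rintro _ ⟨q, rfl⟩
          exact mem_gg (by omega) q
        · rw [Vh, Submodule.span_le]
          rintro g (⟨k', S, h1, h2, rfl⟩ | ⟨S, h1, rfl⟩)
          · obtain rfl : k' = k := by omega
            have hc : S.card = 0 := by omega
            exact ⟨Pi.single ⟨S, hc⟩ 1, ph_single _ _ _ _⟩
          · omega
      have hinj : Function.Injective (ph (n := n) 0 k) := by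
        rw [← LinearMap.ker_eq_bot, LinearMap.ker_eq_bot']
        intro q h
        obtain ⟨p', hp'⟩ := ph_eq hS 0 k q
        rw [hp', add_comm] at h
        have h1 := (hJ n k).2 (by omega) _ _ h
        exact hI n 0 k (by omega) (by omega) (by rw [h1, map_zero])
      obtain ⟨h1, h2, h3⟩ := tr_of (Vh n (k + 1) (k + 1)) (ph 0 k) hinj hr
        (fun v => rename σ v) (uAct 0 σ) (fun κ => (hQ n 0 k σ κ).2.2.1)
      refine ⟨h1, h2, fun φ hφ => ?_⟩
      rw [h3 φ hφ, hU, tr, if_neg (by omega), if_neg (by omega)]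
      simp
  · -- 2 j ≤ d
    let L : (U n (k + 1) × U n k) →ₗ[ℂ] MvPolynomial (Fin n) ℂ := (pl (k + 1)).coprod (ps k)
    have hLa : ∀ p q, L (p, q) = pl (k + 1) p + ps k q := fun p q => rfl
    have hpl : ∀ p : U n (k + 1), pl (k + 1) p ∈ Vh n d (k + 1) :=
      fun p => pl_mem' hn h2j hS hD hE hC hT p
    have hr : LinearMap.range L = Vh n d (k + 1) := by
      apply le_antisymm
      · rintro _ ⟨⟨p, q⟩, rfl⟩
        rw [hLa]
        refine Submodule.add_mem _ (hpl p) ?_
        obtain ⟨s, hs⟩ : ∃ s, d = s + (k + 1) := ⟨d - (k + 1), by omega⟩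
        obtain ⟨κ, rfl⟩ := hD n s k (by omega) (by omega) q
        obtain ⟨p', hp'⟩ := ph_eq hS s k κ
        have h1 : ps k (D s k κ) = ph s k κ - pl (k + 1) p' := by
          rw [hp', add_sub_cancel_left]
        rw [h1]
        exact Submodule.sub_mem _ (mem_gg (by omega) κ) (hpl p')
      · rw [Vh, Submodule.span_le]
        rintro g (⟨k', S, h1, h2, rfl⟩ | ⟨S, h1, rfl⟩)
        · obtain rfl : k' = k := by omega
          obtain ⟨p', hp'⟩ := ph_eq hS S.card k' (Pi.single ⟨S, rfl⟩ 1)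
          rw [ph_single] at hp'
          exact ⟨(p', D S.card k' (Pi.single ⟨S, rfl⟩ 1)), by rw [hLa, hp']⟩
        · obtain ⟨p, hp⟩ := (hS n 0 (k + 1)).2.2.2 S
          exact ⟨(p, 0), by rw [hLa, map_zero, add_zero, hp]⟩
    have hinj : Function.Injective L := by
      rw [← LinearMap.ker_eq_bot, LinearMap.ker_eq_bot']
      rintro ⟨p, q⟩ h
      rw [hLa, add_comm] at h
      have hq := (hJ n k).2 (by omega) _ _ h
      subst hq
      rw [map_zero, zero_add] at h
      have hp : p = 0 := (hJ n (k + 1)).1 (by rw [h, map_zero])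
      rw [hp]
      rfl
    obtain ⟨h1, h2, h3⟩ := tr_of (Vh n d (k + 1)) L hinj hr
      (fun v => rename σ v) ((uAct (k + 1) σ).prodMap (uAct k σ)) (by
        rintro ⟨p, q⟩
        show rename σ (L (p, q)) = L (uAct (k + 1) σ p, uAct k σ q)
        rw [hLa, hLa, map_add, (hQ n (k + 1) 0 σ p).1, (hQ n k 0 σ q).2.1])
    refine ⟨h1, h2, fun φ hφ => ?_⟩
    rw [h3 φ hφ, LinearMap.trace_prodMap', hU, hU, tr, if_neg (by omega), if_neg (by omega)]
    have hm : min (k + 1) (d - (k + 1)) = k + 1 := by omega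
    rw [hm, if_neg (by omega)]
    simp

end Pool.Agent.H89.PM
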