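import Pool.Agent.H89.PM.Stm

set_option autoImplicit false

/-!
# Piece POL1: polarizations (helper72)
-/

namespace Pool.Agent.H89.PM

open MvPolynomial Finset

namespace Pol1

variable {ℓ n : ℕ}

lemma wt_apply (d : Fin ℓ × Fin n →₀ ℕ) (i : Fin ℓ) :
    (Finsupp.weight wt d) i = ∑ j, d (i, j) := by
  rw [Finsupp.weight_apply, Finsupp.sum_fintype _ _ (by intro; simp), Finset.sum_apply,
    Fintype.sum_prod_type]
  rw [Finset.sum_eq_single i]
  · refine Finset.sum_congr rfl fun j _ => ?_
    simp [wt]
  · intro i' _ hi'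
    refine Finset.sum_eq_zero fun j _ => ?_
    simp [wt, hi'.symm]
  · intro h
    exact absurd (Finset.mem_univ _) h

lemma wt_add (d : Fin ℓ × Fin n →₀ ℕ) (k : Fin ℓ) (j : Fin n) :
    Finsupp.weight wt (d + Finsupp.single (k, j) 1) = Finsupp.weight wt d + Pi.single k 1 := by
  rw [map_add, Finsupp.weight_single, one_smul]
  rfl

lemma degree_eq (d : Fin ℓ × Fin n →₀ ℕ) :
    d.degree = ∑ i, (Finsupp.weight wt d) i := by
  simp only [wt_apply]
  rw [Finsupp.degree_eq_sum, Fintype.sum_prod_type]

/-- derivatives of components -/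
lemma comp_add (r : Fin ℓ → ℕ) (k : Fin ℓ) (j : Fin n) (h : P ℓ n) :
    pderiv (k, j) (weightedHomogeneousComponent wt (r + Pi.single k 1) h) =
      weightedHomogeneousComponent wt r (pderiv (k, j) h) := by
  classical
  ext d
  rw [coeff_pderiv, coeff_weightedHomogeneousComponent, coeff_weightedHomogeneousComponent,
    coeff_pderiv, wt_add]
  by_cases hd : Finsupp.weight wt d = r
  · rw [if_pos hd, if_pos (by rw [hd])]
  · rw [if_neg hd, if_neg (fun h' => hd (add_right_cancel h')), zero_mul]

lemma comp_zero (s : Fin ℓ → ℕ) (k : Fin ℓ) (j : Fin n) (h : P ℓ n) (hs : s k = 0) :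
    pderiv (k, j) (weightedHomogeneousComponent wt s h) = 0 := by
  classical
  ext d
  rw [coeff_pderiv, coeff_weightedHomogeneousComponent, wt_add, if_neg, zero_mul, coeff_zero]
  intro h'
  have := congrFun h' k
  simp [hs] at this

lemma Th_X (j : Fin n) : Th ℓ n (X j) = ∑ i : Fin ℓ, X (i, j) := by
  simp [Th]

lemma pderiv_Th (k : Fin ℓ) (j : Fin n) (g : MvPolynomial (Fin n) ℂ) :
    pderiv (k, j) (Th ℓ n g) = Th ℓ n (pderiv j g) := by
  induction g using MvPolynomial.induction_on with
  | C a => simp [Th]
  | add p q hp hq => simp only [map_add, hp, hq]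
  | mul_X p m hp =>
    rw [map_mul, Derivation.leibniz, Derivation.leibniz, hp, Th_X]
    simp only [smul_eq_mul, map_add, map_mul, map_sum, Th_X]
    congr 2
    rw [pderiv_X]
    rw [Finset.sum_eq_single k]
    · rw [pderiv_X]
      by_cases hm : m = j
      · subst hm; simp
      · rw [Pi.single_eq_of_ne hm, Pi.single_eq_of_ne (by simp [hm]), map_zero]
    · intro i _ hi
      rw [pderiv_X, Pi.single_eq_of_ne (by simp [hi])]
    · intro h
      exact absurd (Finset.mem_univ _) h

lemma euler (s : Fin ℓ → ℕ) (i : Fin ℓ) (h : P ℓ n)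
    (hh : weightedHomogeneousComponent wt s h = h) :
    ∑ j, X (i, j) * pderiv (i, j) h = (s i : ℂ) • h := by
  classical
  ext d
  rw [coeff_sum, coeff_smul, smul_eq_mul]
  have h1 : ∀ j : Fin n, coeff d (X (i, j) * pderiv (i, j) h) = (d (i, j) : ℂ) * coeff d h := by
    intro j
    rw [coeff_X_mul']
    split_ifs with hd
    · rw [coeff_pderiv]
      have h2 : d - Finsupp.single (i, j) 1 + Finsupp.single (i, j) 1 = d := by
        ext a
        simp only [Finsupp.coe_add, Finsupp.coe_tsub, Pi.add_apply, Pi.sub_apply]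
        by_cases ha : a = (i, j)
        · subst ha
          have := Finsupp.mem_support_iff.1 hd
          simp only [Finsupp.single_eq_same]
          omega
        · simp [Finsupp.single_eq_of_ne ha]
      rw [h2]
      have h3 : (((d - Finsupp.single (i, j) 1 : Fin ℓ × Fin n →₀ ℕ) (i, j) : ℕ) : ℂ) + 1 =
          d (i, j) := by
        have := congrArg (fun e => ((e (i, j) : ℕ) : ℂ)) h2
        simpa using this
      rw [h3, mul_comm]
    · rw [Finsupp.notMem_support_iff.1 hd]
      simp
  simp only [h1]
  rw [← Finset.sum_mul]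
  by_cases hc : coeff d h = 0
  · rw [hc, mul_zero, mul_zero]
  · congr 1
    rw [← hh, coeff_weightedHomogeneousComponent] at hc
    have hw : Finsupp.weight wt d = s := by
      by_contra hne
      rw [if_neg hne] at hc
      exact hc rfl
    rw [← hw, wt_apply]
    push_cast
    rfl

lemma comp_comp (r s : Fin ℓ → ℕ) (h : P ℓ n) :
    weightedHomogeneousComponent wt r (weightedHomogeneousComponent wt s h) =
      if r = s then weightedHomogeneousComponent wt s h else 0 := by
  classical
  ext d
  rw [coeff_weightedHomogeneousComponent]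
  by_cases hd : Finsupp.weight wt d = r
  · rw [if_pos hd]
    by_cases hrs : r = s
    · rw [if_pos hrs]
    · rw [if_neg hrs, coeff_weightedHomogeneousComponent, if_neg (fun h' => hrs (hd.symm.trans h')),
        coeff_zero]
  · rw [if_neg hd]
    by_cases hrs : r = s
    · rw [if_pos hrs, coeff_weightedHomogeneousComponent, if_neg (fun h' => hd (h'.trans hrs.symm))]
    · rw [if_neg hrs, coeff_zero]

lemma Th_hom (j : ℕ) (g : MvPolynomial (Fin n) ℂ) (hg : g.IsHomogeneous j) :
    (Th ℓ n g).IsHomogeneous j := by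
  have := hg.aeval (fun m : Fin n => ∑ i : Fin ℓ, (X (i, m) : P ℓ n)) (n := 1) ?_
  · simpa [Th] using this
  · intro m
    exact IsHomogeneous.sum _ _ _ fun i _ => isHomogeneous_X _ _

/-- set the variables outside the row `0` equal to `0` -/
noncomputable def p0 (ℓ n : ℕ) [NeZero ℓ] : P ℓ n →ₐ[ℂ] P ℓ n :=
  aeval (fun a => if a.1 = 0 then X a else 0)

lemma p0_Th [NeZero ℓ] (g : MvPolynomial (Fin n) ℂ) : p0 ℓ n (Th ℓ n g) = row ℓ g := by
  have : (p0 ℓ n).comp (Th ℓ n) = rename (fun j => ((0 : Fin ℓ), j)) := by
    ext m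
    simp [p0, Th]
  exact congrArg (fun f => f g) this

lemma p0_comp [NeZero ℓ] (j : ℕ) (h : P ℓ n) (hh : h.IsHomogeneous j) :
    weightedHomogeneousComponent wt (Pi.single (0 : Fin ℓ) j) h = p0 ℓ n h := by
  classical
  rw [h.as_sum, map_sum, map_sum]
  refine Finset.sum_congr rfl fun d hd => ?_
  have hdeg : d.degree = j := by
    have := hh (mem_support_iff.1 hd)
    rwa [show Finsupp.weight (1 : Fin ℓ × Fin n → ℕ) d = d.degree by
      rw [Finsupp.degree_eq_weight_one]; rfl] at this
  set c := coeff d h
  have h1 : weightedHomogeneousComponent wt (Pi.single (0 : Fin ℓ) j) (monomial d c) =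
      if Finsupp.weight wt d = Pi.single (0 : Fin ℓ) j then monomial d c else 0 := by
    ext e
    rw [coeff_weightedHomogeneousComponent, coeff_monomial]
    by_cases he : d = e
    · subst he
      rw [if_pos rfl]
      split_ifs
      · rw [coeff_monomial, if_pos rfl]
      · rw [coeff_zero]
    · rw [if_neg he]
      split_ifs
      · rw [coeff_monomial, if_neg he]
      · rw [coeff_zero]
      · rw [coeff_monomial, if_neg he]
      · rw [coeff_zero]
  rw [h1]
  by_cases hw : Finsupp.weight wt d = Pi.single (0 : Fin ℓ) j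
  · rw [if_pos hw, p0, aeval_monomial, monomial_eq]
    congr 1
    refine Finset.prod_congr rfl fun a ha => ?_
    have h0 : a.1 = 0 := by
      by_contra hne
      have h2 := congrFun hw a.1
      rw [wt_apply, Pi.single_eq_of_ne hne] at h2
      have h3 := (Finset.sum_eq_zero_iff.1 h2) a.2 (Finset.mem_univ _)
      exact (Finsupp.mem_support_iff.1 ha) h3
    simp only [if_pos h0]
  · rw [if_neg hw, p0, aeval_monomial]
    have h2 : ∃ a ∈ d.support, a.1 ≠ 0 := by
      by_contra hne
      push Not at hne
      apply hw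
      have h4 : ∀ i : Fin ℓ, i ≠ 0 → (Finsupp.weight wt d) i = 0 := by
        intro i hi
        rw [wt_apply]
        refine Finset.sum_eq_zero fun m _ => ?_
        by_contra h5
        exact hi (hne (i, m) (Finsupp.mem_support_iff.2 h5))
      funext i
      by_cases hi : i = 0
      · subst hi
        rw [Pi.single_eq_same, ← hdeg, degree_eq]
        rw [Finset.sum_eq_single (0 : Fin ℓ)]
        · intro i _ hi
          exact h4 i hi
        · intro h
          exact absurd (Finset.mem_univ _) h
      · rw [Pi.single_eq_of_ne hi, h4 i hi]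
    obtain ⟨a, ha, ha0⟩ := h2
    rw [Finsupp.prod, Finset.prod_eq_zero ha, mul_zero]
    rw [if_neg ha0, zero_pow (Finsupp.mem_support_iff.1 ha)]

lemma sAct_Th (σ : Equiv.Perm (Fin n)) (g : MvPolynomial (Fin n) ℂ) :
    sAct σ (Th ℓ n g) = Th ℓ n (rename σ g) := by
  have : (sAct (ℓ := ℓ) σ).comp (Th ℓ n) = (Th ℓ n).comp (rename σ) := by
    ext m
    simp [sAct, Th]
  exact congrArg (fun f => f g) this

lemma sAct_comp (σ : Equiv.Perm (Fin n)) (r : Fin ℓ → ℕ) (h : P ℓ n) :
    sAct σ (weightedHomogeneousComponent wt r h) = weightedHomogeneousComponent wt r (sAct σ h) := by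
  classical
  set e : Fin ℓ × Fin n ≃ Fin ℓ × Fin n := (Equiv.refl _).prodCongr σ with he
  have hs : ∀ p : P ℓ n, sAct σ p = rename e p := by
    intro p; rfl
  ext d
  have hd : d = (d.mapDomain e.symm).mapDomain e := by
    rw [← Finsupp.mapDomain_comp]
    simp
  rw [hs, hs, hd, coeff_rename_mapDomain _ e.injective, coeff_weightedHomogeneousComponent,
    coeff_weightedHomogeneousComponent, coeff_rename_mapDomain _ e.injective]
  have hw : Finsupp.weight wt ((d.mapDomain e.symm).mapDomain e) =
      Finsupp.weight wt (d.mapDomain e.symm) := by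
    rw [Finsupp.weight_apply, Finsupp.weight_apply,
      Finsupp.sum_mapDomain_index (by intro; simp) (by intro a b c; rw [add_smul])]
    rfl
  rw [hw]

end Pol1

open Pol1

theorem pol1 : S_POL1 := by
  intro ℓ n _
  refine ⟨?_, ?_, ?_, ?_, ?_, ?_, ?_⟩
  · intro r k j g
    show pderiv (k, j) (weightedHomogeneousComponent wt (r + Pi.single k 1) (Th ℓ n g)) =
      weightedHomogeneousComponent wt r (Th ℓ n (pderiv j g))
    rw [comp_add, pderiv_Th]
  · intro s k j g hs
    exact comp_zero s k j _ hs
  · intro r i g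
    have h1 : ∀ j, cc r (pderiv j g) = pderiv (i, j) (cc (r + Pi.single i 1) g) := by
      intro j
      show weightedHomogeneousComponent wt r (Th ℓ n (pderiv j g)) =
        pderiv (i, j) (weightedHomogeneousComponent wt (r + Pi.single i 1) (Th ℓ n g))
      rw [comp_add, pderiv_Th]
    simp only [h1]
    rw [euler (r + Pi.single i 1) i]
    · simp
    · show weightedHomogeneousComponent wt _ (weightedHomogeneousComponent wt _ (Th ℓ n g)) =
        weightedHomogeneousComponent wt _ (Th ℓ n g)
      rw [comp_comp, if_pos rfl]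
  · intro j g hg
    show weightedHomogeneousComponent wt _ (Th ℓ n g) = _
    rw [p0_comp j _ (Th_hom j g hg), p0_Th]
  · intro j r g hg hr
    classical
    show weightedHomogeneousComponent wt r (Th ℓ n g) = 0
    ext d
    rw [coeff_weightedHomogeneousComponent, coeff_zero]
    split_ifs with hd
    · by_contra hne
      have := Th_hom (ℓ := ℓ) j g hg hne
      rw [show Finsupp.weight (1 : Fin ℓ × Fin n → ℕ) d = d.degree by
        rw [Finsupp.degree_eq_weight_one]; rfl, degree_eq, hd] at this
      exact hr this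
    · rfl
  · intro r s g
    exact comp_comp r s _
  · intro r σ g
    show sAct σ (weightedHomogeneousComponent wt r (Th ℓ n g)) =
      weightedHomogeneousComponent wt r (Th ℓ n (rename σ g))
    rw [sAct_comp, sAct_Th]

end Pool.Agent.H89.PM
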