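import Pool.Agent.H89.PM.Stm

set_option autoImplicit false

/-!
# Piece POL2: the polarization module (helper72)
-/

namespace Pool.Agent.H89.PM

open MvPolynomial Finset

namespace Pol2

variable {ℓ n : ℕ}

lemma iter_add (p : ℕ) (k : Fin ℓ) (j : Fin n) (f g : P ℓ n) :
    (pderiv (k, j))^[p] (f + g) = (pderiv (k, j))^[p] f + (pderiv (k, j))^[p] g :=
  iterate_map_add (pderiv (k, j)) p f g

lemma iter_smul (p : ℕ) (k : Fin ℓ) (j : Fin n) (c : ℂ) (f : P ℓ n) :
    (pderiv (k, j))^[p] (c • f) = c • (pderiv (k, j))^[p] f := by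
  induction p generalizing f with
  | zero => rfl
  | succ p ih =>
    rw [Function.iterate_succ_apply, Function.iterate_succ_apply, Derivation.map_smul, ih]

lemma iter_zero (p : ℕ) (k : Fin ℓ) (j : Fin n) :
    (pderiv (k, j))^[p] (0 : P ℓ n) = 0 :=
  iterate_map_zero (pderiv (k, j)) p

lemma E_add (p : ℕ) (i k : Fin ℓ) (f g : P ℓ n) : E p i k (f + g) = E p i k f + E p i k g := by
  unfold E
  rw [← Finset.sum_add_distrib]
  refine Finset.sum_congr rfl fun j _ => ?_
  rw [iter_add, mul_add]

lemma E_smul (p : ℕ) (i k : Fin ℓ) (c : ℂ) (f : P ℓ n) : E p i k (c • f) = c • E p i k f := by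
  unfold E
  rw [Finset.smul_sum]
  refine Finset.sum_congr rfl fun j _ => ?_
  rw [iter_smul, mul_smul_comm]

lemma E_zero (p : ℕ) (i k : Fin ℓ) : E p i k (0 : P ℓ n) = 0 := by
  unfold E
  refine Finset.sum_eq_zero fun j _ => ?_
  rw [iter_zero, mul_zero]

/-- a nonzero entry -/
lemma split (s : Fin ℓ → ℕ) (k : Fin ℓ) (hs : s k ≠ 0) :
    ∃ r : Fin ℓ → ℕ, s = r + Pi.single k 1 := by
  refine ⟨s - Pi.single k 1, ?_⟩
  funext i
  by_cases hi : i = k
  · subst hi
    simp only [Pi.add_apply, Pi.sub_apply, Pi.single_eq_same]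
    omega
  · simp [Pi.single_eq_of_ne hi]

lemma sum_add (r : Fin ℓ → ℕ) (k : Fin ℓ) :
    ∑ i, (r + Pi.single k 1 : Fin ℓ → ℕ) i = ∑ i, r i + 1 := by
  simp only [Pi.add_apply]
  rw [Finset.sum_add_distrib]
  congr 1
  simp

/-- moving the multidegree -/
lemma move (h1 : S_POL1) [NeZero ℓ] (W : Submodule ℂ (P ℓ n))
    (hE : ∀ i k : Fin ℓ, ∀ g ∈ W, E 1 i k g ∈ W) (g : MvPolynomial (Fin n) ℂ) :
    ∀ (m : ℕ) (r s : Fin ℓ → ℕ), ∑ i, (r i - s i) = m → ∑ i, r i = ∑ i, s i →
      cc r g ∈ W → cc s g ∈ W := by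
  obtain ⟨p1, p2, p3, p4, p5, p6, p7⟩ := h1 ℓ n
  intro m
  induction m with
  | zero =>
    intro r s hm hrs hr
    have h2 : ∀ i, r i ≤ s i := by
      intro i
      have := (Finset.sum_eq_zero_iff.1 hm) i (Finset.mem_univ _)
      omega
    have h3 : r = s := by
      funext i
      by_contra hne
      have h4 : ∑ i, r i < ∑ i, s i :=
        Finset.sum_lt_sum (fun i _ => h2 i) ⟨i, Finset.mem_univ _, lt_of_le_of_ne (h2 i) hne⟩
      omega
    rwa [← h3]
  | succ m ih =>
    intro r s hm hrs hr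
    have hk : ∃ k, s k < r k := by
      by_contra hne
      push Not at hne
      have : ∑ i, (r i - s i) = 0 := Finset.sum_eq_zero fun i _ => by
        have := hne i
        omega
      omega
    obtain ⟨k, hk⟩ := hk
    have hi : ∃ i, r i < s i := by
      by_contra hne
      push Not at hne
      have h4 : ∑ i, s i < ∑ i, r i :=
        Finset.sum_lt_sum (fun i _ => hne i) ⟨k, Finset.mem_univ _, hk⟩
      omega
    obtain ⟨i, hi⟩ := hi
    obtain ⟨r0, hr0⟩ := split r k (by omega)
    have hik : i ≠ k := by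
      rintro rfl
      omega
    have h5 : cc (r0 + Pi.single i 1) g ∈ W := by
      have h6 := hE i k _ hr
      rw [hr0] at h6
      have h7 : E 1 i k (cc (r0 + Pi.single k 1) g) =
          ((r0 i : ℂ) + 1) • cc (r0 + Pi.single i 1) g := by
        rw [← p3]
        unfold E
        refine Finset.sum_congr rfl fun j _ => ?_
        rw [Function.iterate_one, p1]
      rw [h7] at h6
      have h8 : ((r0 i : ℂ) + 1) ≠ 0 := by
        exact_mod_cast Nat.succ_ne_zero (r0 i)
      exact (Submodule.smul_mem_iff W h8).1 h6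
    refine ih (r0 + Pi.single i 1) s ?_ ?_ h5
    · have h9 : ∑ a, (r a - s a) = ∑ a, ((r0 + Pi.single i 1 : Fin ℓ → ℕ) a - s a) + 1 := by
        have e1 := Finset.sum_erase_add univ (fun a => r a - s a) (Finset.mem_univ k)
        have e2 := Finset.sum_erase_add univ (fun a => ((r0 + Pi.single i 1 : Fin ℓ → ℕ) a - s a))
            (Finset.mem_univ k)
        rw [← e1, ← e2, add_assoc]
        congr 1
        · refine Finset.sum_congr rfl fun a ha => ?_
          have hak : a ≠ k := Finset.ne_of_mem_erase ha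
          rw [hr0]
          simp only [Pi.add_apply, Pi.single_eq_of_ne hak, add_zero]
          by_cases hai : a = i
          · subst hai
            rw [hr0] at hi
            simp only [Pi.add_apply, Pi.single_eq_of_ne hak, add_zero] at hi
            simp only [Pi.single_eq_same]
            omega
          · rw [Pi.single_eq_of_ne hai, add_zero]
        · rw [hr0]
          rw [hr0] at hk
          simp only [Pi.add_apply, Pi.single_eq_same, Pi.single_eq_of_ne hik.symm, add_zero] at hk ⊢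
          omega
      omega
    · rw [sum_add, ← sum_add r0 k, ← hr0, hrs]

lemma rename_m21 (d : ℕ) (σ : Equiv.Perm (Fin n)) : rename σ (m21 n d) = m21 n d := by
  unfold m21
  rw [map_sum]
  rw [← Equiv.sum_comp σ (fun j => ∑ B ∈ powersetCard (d - 2) (univ.erase j),
    (X j ^ 2 * ∏ b ∈ B, X b : MvPolynomial (Fin n) ℂ))]
  refine Finset.sum_congr rfl fun j _ => ?_
  have h1 : univ.erase (σ j) = (univ.erase j).map σ.toEmbedding := by
    ext x
    simp only [mem_erase, mem_univ, and_true, mem_map, Equiv.coe_toEmbedding]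
    constructor
    · intro h
      exact ⟨σ.symm x, fun h' => h (by rw [← h', Equiv.apply_symm_apply]), by simp⟩
    · rintro ⟨y, hy, rfl⟩ h
      exact hy (σ.injective h)
  rw [h1, powersetCard_map, Finset.sum_map, map_sum]
  refine Finset.sum_congr rfl fun B _ => ?_
  simp [map_mul, map_prod, map_pow]

lemma row_pderiv [NeZero ℓ] (a : Fin n) (g : MvPolynomial (Fin n) ℂ) :
    pderiv ((0 : Fin ℓ), a) (row ℓ g) = row ℓ (pderiv a g) := by
  unfold row
  exact pderiv_rename (f := fun j => ((0 : Fin ℓ), j)) (fun _ _ h => (Prod.ext_iff.1 h).2) a g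

/-- the linear map `row` -/
noncomputable def rowL (ℓ n : ℕ) [NeZero ℓ] : MvPolynomial (Fin n) ℂ →ₗ[ℂ] P ℓ n :=
  (rename (fun j => ((0 : Fin ℓ), j))).toLinearMap

lemma rowL_apply [NeZero ℓ] (g : MvPolynomial (Fin n) ℂ) : rowL ℓ n g = row ℓ g := rfl

end Pol2

open Pol2

theorem pol2 (h1 : S_POL1) (h2 : S_VV) : S_POL2 := by
  intro ℓ n d _ hd3 hdn r
  obtain ⟨p1, p2, p3, p4, p5, p6, p7⟩ := h1 ℓ n
  obtain ⟨v1, v2, v3, v4, v5, v6⟩ := h2 n d hd3 hdn
  set f : P ℓ n := row ℓ (m21 n d) with hf
  set N : Submodule ℂ (P ℓ n) :=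
    Submodule.span ℂ {x | ∃ (s : Fin ℓ → ℕ) (g : MvPolynomial (Fin n) ℂ),
      g ∈ Vh n d (∑ i, s i) ∧ x = cc s g} with hN
  have hmem : ∀ (s : Fin ℓ → ℕ) (g : MvPolynomial (Fin n) ℂ), g ∈ Vh n d (∑ i, s i) →
      cc s g ∈ N := fun s g hg => Submodule.subset_span ⟨s, g, hg, rfl⟩
  have hrow : f = cc (Pi.single (0 : Fin ℓ) d) (m21 n d) := (p4 d _ (v4 d _ v5)).symm
  have hsum0 : ∀ j : ℕ, ∑ i, (Pi.single (0 : Fin ℓ) j : Fin ℓ → ℕ) i = j := by
    intro j; simp
  -- derivatives
  have hder : ∀ (s : Fin ℓ → ℕ) (g : MvPolynomial (Fin n) ℂ), g ∈ Vh n d (∑ i, s i) →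
      ∀ k j, pderiv (k, j) (cc s g) ∈ N := by
    intro s g hg k j
    by_cases hs : s k = 0
    · rw [p2 s k j g hs]; exact N.zero_mem
    · obtain ⟨s', rfl⟩ := split s k hs
      rw [p1]
      rw [sum_add] at hg
      exact hmem _ _ (v1 _ g hg j)
  have h3z : ∀ (s : Fin ℓ → ℕ) (j0 : ℕ) (g : MvPolynomial (Fin n) ℂ), g ∈ Vh n d j0 →
      ∀ k j, pderiv (k, j) (pderiv (k, j) (pderiv (k, j) (cc s g))) = 0 := by
    intro s j0 g hg k j
    by_cases hs : s k = 0
    · rw [p2 s k j g hs, map_zero, map_zero]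
    obtain ⟨s1, rfl⟩ := split s k hs
    rw [p1]
    by_cases hs1 : s1 k = 0
    · rw [p2 s1 k j _ hs1, map_zero]
    obtain ⟨s2, rfl⟩ := split s1 k hs1
    rw [p1]
    by_cases hs2 : s2 k = 0
    · rw [p2 s2 k j _ hs2]
    obtain ⟨s3, rfl⟩ := split s2 k hs2
    rw [p1, v3 j0 g hg j, map_zero]
  have hpol : ∀ (p : ℕ), 1 ≤ p → ∀ (i k : Fin ℓ) (s : Fin ℓ → ℕ) (g : MvPolynomial (Fin n) ℂ),
      g ∈ Vh n d (∑ i, s i) → E p i k (cc s g) ∈ N := by
    intro p hp i k s g hg
    by_cases hp3 : 3 ≤ p
    · obtain ⟨q, rfl⟩ : ∃ q, p = q + 3 := ⟨p - 3, by omega⟩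
      have : E (q + 3) i k (cc s g) = 0 := by
        unfold E
        refine Finset.sum_eq_zero fun j _ => ?_
        rw [Function.iterate_succ_apply, Function.iterate_succ_apply, Function.iterate_succ_apply,
          h3z s _ g hg k j, iter_zero, mul_zero]
      rw [this]; exact N.zero_mem
    by_cases hs : s k = 0
    · have : E p i k (cc s g) = 0 := by
        obtain ⟨q, rfl⟩ : ∃ q, p = q + 1 := ⟨p - 1, by omega⟩
        unfold E
        refine Finset.sum_eq_zero fun j _ => ?_
        rw [Function.iterate_succ_apply, p2 s k j g hs, iter_zero, mul_zero]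
      rw [this]; exact N.zero_mem
    obtain ⟨s1, rfl⟩ := split s k hs
    rw [sum_add] at hg
    by_cases hp1 : p = 1
    · subst hp1
      have : E 1 i k (cc (s1 + Pi.single k 1) g) = ((s1 i : ℂ) + 1) • cc (s1 + Pi.single i 1) g := by
        rw [← p3]
        unfold E
        refine Finset.sum_congr rfl fun j _ => ?_
        rw [Function.iterate_one, p1]
      rw [this]
      exact N.smul_mem _ (hmem _ _ (by rwa [sum_add]))
    · have hp2 : p = 2 := by omega
      subst hp2
      by_cases hs1 : s1 k = 0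
      · have : E 2 i k (cc (s1 + Pi.single k 1) g) = 0 := by
          unfold E
          refine Finset.sum_eq_zero fun j _ => ?_
          rw [Function.iterate_succ_apply, Function.iterate_one, p1, p2 s1 k j _ hs1, mul_zero]
        rw [this]; exact N.zero_mem
      obtain ⟨s2, rfl⟩ := split s1 k hs1
      rw [sum_add] at hg
      obtain ⟨g', hg', he⟩ := v2 _ g hg
      have : E 2 i k (cc (s2 + Pi.single k 1 + Pi.single k 1) g) =
          ((s2 i : ℂ) + 1) • cc (s2 + Pi.single i 1) g' := by
        rw [← p3]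
        unfold E
        refine Finset.sum_congr rfl fun j _ => ?_
        rw [Function.iterate_succ_apply, Function.iterate_one, p1, p1, he]
      rw [this]
      exact N.smul_mem _ (hmem _ _ (by rwa [sum_add]))
  have hclosed : Closed f N := by
    constructor
    · intro σ
      rw [hrow, p7, rename_m21]
      exact hmem _ _ (by rw [hsum0]; exact v5)
    · rintro ⟨k, j⟩ g hg
      refine Submodule.span_induction (p := fun g _ => pderiv (k, j) g ∈ N) ?_ ?_ ?_ ?_ hg
      · rintro x ⟨s, g, hg, rfl⟩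
        exact hder s g hg k j
      · rw [map_zero]; exact N.zero_mem
      · intro x y _ _ hx hy
        rw [map_add]; exact N.add_mem hx hy
      · intro c x _ hx
        rw [Derivation.map_smul]; exact N.smul_mem _ hx
    · intro p hp i k g hg
      refine Submodule.span_induction (p := fun g _ => E p i k g ∈ N) ?_ ?_ ?_ ?_ hg
      · rintro x ⟨s, g, hg, rfl⟩
        exact hpol p hp i k s g hg
      · rw [E_zero]; exact N.zero_mem
      · intro x y _ _ hx hy
        rw [E_add]; exact N.add_mem hx hy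
      · intro c x _ hx
        rw [E_smul]; exact N.smul_mem _ hx
  have hle : N ≤ polMod f := by
    refine le_sInf ?_
    rintro W ⟨w1, w2, w3⟩
    rw [hN, Submodule.span_le]
    rintro x ⟨s, g, hg, rfl⟩
    have hfW : f ∈ W := by
      have := w1 1
      have h4 : sAct (1 : Equiv.Perm (Fin n)) f = f := by
        rw [hrow, p7, rename_m21]
      rwa [h4] at this
    have h5 : ∀ j, Vh n d j ≤ W.comap (rowL ℓ n) := by
      refine v6 _ ?_ ?_ ?_
      · rw [Submodule.mem_comap, rowL_apply]; exact hfW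
      · intro a g hg
        rw [Submodule.mem_comap, rowL_apply] at hg ⊢
        rw [← row_pderiv]
        exact w2 _ _ hg
      · intro g hg
        rw [Submodule.mem_comap, rowL_apply] at hg ⊢
        have h6 : row ℓ (∑ a, X a * pderiv a (pderiv a g)) = E 2 0 0 (row ℓ g) := by
          unfold E
          rw [← rowL_apply, map_sum]
          refine Finset.sum_congr rfl fun a _ => ?_
          rw [Function.iterate_succ_apply, Function.iterate_one, row_pderiv, row_pderiv, rowL_apply]
          unfold row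
          rw [map_mul, rename_X]
        rw [h6]
        exact w3 2 (by norm_num) 0 0 _ hg
    have h7 : cc (Pi.single (0 : Fin ℓ) (∑ i, s i)) g ∈ W := by
      rw [p4 _ g (v4 _ g hg)]
      exact h5 _ hg
    exact move h1 W (fun i k g hg => w3 1 le_rfl i k g hg) g _ _ _ rfl (hsum0 _) h7
  have heq : polMod f = N := le_antisymm (sInf_le hclosed) hle
  -- components of elements of `N`
  have hcomp : ∀ s : Fin ℓ → ℕ, ∀ x ∈ N, ∃ g ∈ Vh n d (∑ i, s i),
      weightedHomogeneousComponent wt s x = cc s g := by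
    intro s x hx
    refine Submodule.span_induction (p := fun x _ => ∃ g ∈ Vh n d (∑ i, s i),
      weightedHomogeneousComponent wt s x = cc s g) ?_ ?_ ?_ ?_ hx
    · rintro x ⟨s', g, hg, rfl⟩
      by_cases hs : s = s'
      · subst hs
        exact ⟨g, hg, by rw [p6, if_pos rfl]⟩
      · exact ⟨0, Submodule.zero_mem _, by rw [p6, if_neg hs, map_zero]⟩
    · exact ⟨0, Submodule.zero_mem _, by rw [map_zero, map_zero]⟩
    · rintro x y _ _ ⟨g, hg, he⟩ ⟨g', hg', he'⟩
      exact ⟨g + g', Submodule.add_mem _ hg hg', by rw [map_add, map_add, he, he']⟩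
    · rintro c x _ ⟨g, hg, he⟩
      exact ⟨c • g, Submodule.smul_mem _ c hg, by rw [map_smul, map_smul, he]⟩
  refine ⟨?_, ?_⟩
  · intro g hg
    rw [heq] at hg ⊢
    obtain ⟨g', hg', he⟩ := hcomp r g hg
    rw [he]
    exact hmem _ _ hg'
  · have hin : ∀ g ∈ Vh n d (∑ i, r i), cc r g ∈ piece f r := by
      intro g hg
      refine ⟨?_, ?_⟩
      · rw [heq]; exact hmem _ _ hg
      · exact weightedHomogeneousComponent_mem wt _ r
    set L : Vh n d (∑ i, r i) →ₗ[ℂ] piece f r :=
      ((cc r).domRestrict (Vh n d (∑ i, r i))).codRestrict (piece f r) (fun v => hin v.1 v.2)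
      with hL
    have hLv : ∀ v, (L v : P ℓ n) = cc r v := fun v => rfl
    have hinj : Function.Injective L := by
      rw [injective_iff_map_eq_zero]
      intro v hv
      have h6 : cc r (v : MvPolynomial (Fin n) ℂ) ∈ (⊥ : Submodule ℂ (P ℓ n)) := by
        rw [Submodule.mem_bot, ← hLv, hv]
        rfl
      have h7 : cc (Pi.single (0 : Fin ℓ) (∑ i, r i)) (v : MvPolynomial (Fin n) ℂ) ∈
          (⊥ : Submodule ℂ (P ℓ n)) := by
        refine move h1 ⊥ ?_ _ _ r _ rfl (hsum0 _).symm h6
        intro i k g hg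
        rw [Submodule.mem_bot] at hg ⊢
        rw [hg, E_zero]
      rw [Submodule.mem_bot, p4 _ _ (v4 _ _ v.2)] at h7
      apply Subtype.ext
      have h8 : Function.Injective
          (rename (R := ℂ) (fun j : Fin n => ((0 : Fin ℓ), j))) :=
        rename_injective _ (fun _ _ h => (Prod.ext_iff.1 h).2)
      apply h8
      exact h7.trans (map_zero _).symm
    have hsurj : Function.Surjective L := by
      rintro ⟨x, hx1, hx2⟩
      rw [heq] at hx1
      obtain ⟨g, hg, he⟩ := hcomp r x hx1
      refine ⟨⟨g, hg⟩, Subtype.ext ?_⟩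
      rw [hLv]
      show cc r g = x
      rw [← he]
      exact (IsWeightedHomogeneous.weightedHomogeneousComponent_same hx2)
    exact ⟨LinearEquiv.ofBijective L ⟨hinj, hsurj⟩, fun v => rfl⟩

end Pool.Agent.H89.PM
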