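import Pool.Agent.H89.PM.Stm

set_option autoImplicit false

/-!
# Piece VV: properties of the spaces `Vh n d j`
-/

namespace Pool.Agent.H89.PM

open MvPolynomial Finset

variable {n : ℕ}

private theorem gg_mem {d j k : ℕ} {S : Finset (Fin n)} (h : S.card + k + 1 = d) (hj : k + 1 = j) :
    gg k S ∈ Vh n d j :=
  Submodule.subset_span (Or.inl ⟨k, S, h, hj, rfl⟩)

private theorem ee_mem {d j : ℕ} {S : Finset (Fin n)} (h : S.card + j + 1 = d) :
    ee j S ∈ Vh n d j :=
  Submodule.subset_span (Or.inr ⟨S, h, rfl⟩)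

private theorem two_mul_mem (W : Submodule ℂ (MvPolynomial (Fin n) ℂ)) {g : MvPolynomial (Fin n) ℂ}
    (h : g ∈ W) : 2 * g ∈ W := by
  rw [two_mul]
  exact W.add_mem h h

private theorem pderiv_two_mul (a : Fin n) (g : MvPolynomial (Fin n) ℂ) :
    pderiv a (2 * g) = 2 * pderiv a g := by
  rw [two_mul, map_add, two_mul]

/-- span induction in the form which is needed -/
private theorem Vh_induction {d j : ℕ} (W : Submodule ℂ (MvPolynomial (Fin n) ℂ))
    (h1 : ∀ k S, S.card + k + 1 = d → k + 1 = j → gg k S ∈ W)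
    (h2 : ∀ S : Finset (Fin n), S.card + j + 1 = d → ee j S ∈ W) : Vh n d j ≤ W := by
  refine Submodule.span_le.2 ?_
  rintro g (⟨k, S, h, hj, rfl⟩ | ⟨S, h, rfl⟩)
  · exact h1 k S h hj
  · exact h2 S h

private theorem card_insert' {a : Fin n} {S : Finset (Fin n)} (h : a ∉ S) :
    (insert a S).card = S.card + 1 := card_insert_of_notMem h

theorem vv (h1 : S_DER) (h2 : S_M21) (h3 : S_E2) (h4 : S_HOM) : S_VV := by
  intro n d hd hn
  -- the derivatives of `ee`
  have hee2 : ∀ (k : ℕ) (S : Finset (Fin n)) (a : Fin n), pderiv a (pderiv a (ee k S)) = 0 := by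
    intro k S a
    by_cases ha : a ∈ S
    · rw [((h1 n k S a).1 ha).1, map_zero]
    · rcases k with _ | k
      · rw [((h1 n 0 S a).2 ha).1, map_zero]
      · rw [((h1 n k S a).2 ha).2.2.1]
        exact ((h1 n k (insert a S) a).1 (mem_insert_self a S)).1
  have hgg2 : ∀ (k : ℕ) (S : Finset (Fin n)) (a : Fin n),
      pderiv a (pderiv a (gg k S)) = pderiv a (2 * ee k S) := by
    intro k S a
    by_cases ha : a ∈ S
    · rw [((h1 n k S a).1 ha).2]
    · rcases k with _ | k
      · rw [((h1 n 0 S a).2 ha).2.1, map_zero, pderiv_two_mul, ((h1 n 0 S a).2 ha).1, mul_zero]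
      · rw [((h1 n k S a).2 ha).2.2.2, pderiv_two_mul, ((h1 n k S a).2 ha).2.2.1]
        exact ((h1 n k (insert a S) a).1 (mem_insert_self a S)).2
  refine ⟨?_, ?_, ?_, ?_, ?_, ?_⟩
  · intro j g hg a
    have h : Vh n d (j + 1) ≤ (Vh n d j).comap (pderiv a : Derivation ℂ _ _).toLinearMap := by
      refine Vh_induction _ ?_ ?_
      · intro k S hk hkj
        obtain rfl : k = j := by omega
        change pderiv a (gg k S) ∈ Vh n d k
        by_cases ha : a ∈ S
        · rw [((h1 n k S a).1 ha).2]
          exact two_mul_mem _ (ee_mem hk)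
        · rcases k with _ | k
          · rw [((h1 n 0 S a).2 ha).2.1]
            exact Submodule.zero_mem _
          · rw [((h1 n k S a).2 ha).2.2.2]
            exact gg_mem (by rw [card_insert' ha]; omega) rfl
      · intro S hS
        change pderiv a (ee (j + 1) S) ∈ Vh n d j
        by_cases ha : a ∈ S
        · rw [((h1 n (j + 1) S a).1 ha).1]
          exact Submodule.zero_mem _
        · rw [((h1 n j S a).2 ha).2.2.1]
          exact ee_mem (by rw [card_insert' ha]; omega)
    exact h hg
  · intro j g hg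
    have h : Vh n d (j + 1) ≤ (⟨⟨⟨{g | ∃ g' ∈ Vh n d j, ∀ a, pderiv a (pderiv a g) = pderiv a g'}, by
        rintro x y ⟨x', hx, hx'⟩ ⟨y', hy, hy'⟩
        exact ⟨x' + y', Submodule.add_mem _ hx hy, fun a => by simp only [map_add, hx', hy']⟩⟩,
        ⟨0, Submodule.zero_mem _, fun a => by simp only [map_zero]⟩⟩, by
        rintro c x ⟨x', hx, hx'⟩
        exact ⟨c • x', Submodule.smul_mem _ _ hx, fun a => by simp only [Derivation.map_smul, hx']⟩⟩ :
          Submodule ℂ (MvPolynomial (Fin n) ℂ)) := by
      refine Vh_induction _ ?_ ?_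
      · intro k S hk hkj
        obtain rfl : k = j := by omega
        exact ⟨2 * ee k S, two_mul_mem _ (ee_mem hk), hgg2 k S⟩
      · intro S hS
        exact ⟨0, Submodule.zero_mem _, fun a => by rw [hee2, map_zero]⟩
    exact h hg
  · intro j g hg a
    have h : Vh n d j ≤ LinearMap.ker ((pderiv a : Derivation ℂ _ _).toLinearMap ∘ₗ
        (pderiv a : Derivation ℂ _ _).toLinearMap ∘ₗ
        (pderiv a : Derivation ℂ (MvPolynomial (Fin n) ℂ) (MvPolynomial (Fin n) ℂ)).toLinearMap) := by
      refine Vh_induction _ ?_ ?_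
      · intro k S hk hkj
        rw [LinearMap.mem_ker]
        change pderiv a (pderiv a (pderiv a (gg k S))) = 0
        rw [hgg2, pderiv_two_mul, pderiv_two_mul, hee2, mul_zero]
      · intro S hS
        rw [LinearMap.mem_ker]
        change pderiv a (pderiv a (pderiv a (ee j S))) = 0
        rw [hee2, map_zero]
    exact LinearMap.mem_ker.1 (h hg)
  · intro j g hg
    have h : Vh n d j ≤ homogeneousSubmodule (Fin n) ℂ j := by
      refine Vh_induction _ ?_ ?_
      · intro k S hk hkj
        subst hkj
        exact (h4 n k S).2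
      · intro S hS
        exact (h4 n j S).1
    exact h hg
  · rw [h2 n d (by omega)]
    exact gg_mem (by rw [card_empty]; omega) (by omega)
  · intro W hm hD hE j
    have hgg : ∀ (m : ℕ) (k : ℕ) (S : Finset (Fin n)), S.card = m → S.card + k + 1 = d →
        gg k S ∈ W := by
      intro m
      induction m with
      | zero =>
        intro k S hS hk
        rw [card_eq_zero] at hS
        subst hS
        rw [card_empty] at hk
        obtain rfl : k = d - 1 := by omega
        rw [← h2 n d (by omega)]
        exact hm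
      | succ m ih =>
        intro k S hS hk
        obtain ⟨a, T, haT, rfl, hT⟩ := card_eq_succ.1 hS
        rw [← ((h1 n k T a).2 haT).2.2.2]
        exact hD a _ (ih (k + 1) T hT (by omega))
    have hee : ∀ (m : ℕ) (k : ℕ) (S : Finset (Fin n)), S.card = m → S.card + k + 1 = d →
        ee k S ∈ W := by
      intro m
      induction m with
      | zero =>
        intro k S hS hk
        rw [card_eq_zero] at hS
        subst hS
        rw [card_empty] at hk
        obtain ⟨e, rfl⟩ : ∃ e, k = e + 1 := ⟨k - 1, by omega⟩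
        have h5 := hE (gg (e + 1) ∅) (hgg 0 (e + 1) ∅ card_empty (by rw [card_empty]; omega))
        rw [h3 n e] at h5
        have h6 : (2 * ((e : ℂ) + 1)) ≠ 0 := by
          refine mul_ne_zero two_ne_zero ?_
          exact_mod_cast Nat.succ_ne_zero e
        have h7 := W.smul_mem (2 * ((e : ℂ) + 1))⁻¹ h5
        rwa [smul_smul, inv_mul_cancel₀ h6, one_smul] at h7
      | succ m ih =>
        intro k S hS hk
        obtain ⟨a, T, haT, rfl, hT⟩ := card_eq_succ.1 hS
        rw [← ((h1 n k T a).2 haT).2.2.1]
        exact hD a _ (ih (k + 1) T hT (by omega))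
    refine Vh_induction _ ?_ ?_
    · intro k S hk hkj
      exact hgg S.card k S rfl hk
    · intro S hS
      exact hee S.card j S rfl hS

end Pool.Agent.H89.PM
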