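import Pool.Agent.H89.PM.Asm
import Pool.Agent.H89.PM.Disj
import Pool.Agent.H89.PM.Pol1
import Pool.Agent.H89.PM.Pol2
import Pool.Agent.H89.PM.VV

set_option autoImplicit false

namespace Pool.Agent.H89.PM

theorem sVV : S_VV := vv der m21' e2 hom

theorem sPOL2 : S_POL2 := pol2 pol1 sVV

theorem sTRV : S_TRV := trv dinj dsur deig ddec star inj sumS (eqv ren) tru

end Pool.Agent.H89.PM
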