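import Pool.Agent.H89.PM.Defs

set_option autoImplicit false

/-!
# The statements of the pieces

Result (Q1 of MP_30ddb3_co is true): for `n ≥ d ≥ 3` and every `ℓ` the `𝔖_n`-character of the part of
multidegree `r` of the polarization module of `m_{(2,1^{d-2})}` is the one given by the formula.

Compile with the options of the package. Files: `Pool/Agent/H89/PM/<Name>.lean`, theorem
`<name> : S_XXX` (or with the listed statements as hypotheses), namespace `Pool.Agent.H89.PM`.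
-/

namespace Pool.Agent.H89.PM

open MvPolynomial Finset

/-! ### Piece DISJ (pure combinatorics, 1 h)

For `κ ∈ U n t` and a set `K'` with `|K'| ≤ j`, `t + j ≤ n`: if `D t j κ = 0`, i.e. `∑_{T ∩ K = ∅} κ T = 0`
for all `|K| = j`, then summing over all `K ⊇ K'`, `|K| = j`, gives
`C(n - t - |K'|, j - |K'|) ∑_{T ∩ K' = ∅} κ T = 0` (each `T` disjoint from `K'` is disjoint from exactly
that many `K`; the binomial is nonzero as `n - t ≥ j`), so (Z): `∑_{T ∩ K' = ∅} κ T = 0` for all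
`|K'| ≤ j`. By inclusion-exclusion, for every set `I`,
(IE): `∑_{T ⊇ I} κ T = ∑_{K' ⊆ I} (-1)^|K'| ∑_{T ∩ K' = ∅} κ T`
(`∑_{K' ⊆ I, K' ∩ T = ∅} (-1)^|K'| = [I ⊆ T]`), and
(IE'): `∑_{T ∩ K = ∅} κ T = ∑_{I ⊆ K} (-1)^|I| ∑_{T ⊇ I} κ T`. -/

/-- `D t j` is injective for `t ≤ j`, `t + j ≤ n`: by (Z) and (IE) with `|I| = t ≤ j`,
`κ I = ∑_{T ⊇ I} κ T = 0`. -/
def S_DINJ : Prop := ∀ n t j : ℕ, t ≤ j → t + j ≤ n → Function.Injective (D (n := n) t j)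

/-- `D t j` is surjective for `j ≤ t`, `t + j ≤ n`: otherwise there is a nonzero linear functional
`ν ∈ U n j` (dot product) vanishing on the range; then `∑_K ν K (D t j κ) K = ∑_T κ T (D j t ν) T = 0`
for all `κ`, so `D j t ν = 0`, so `ν = 0` by `S_DINJ`. -/
def S_DSUR : Prop := ∀ n t j : ℕ, j ≤ t → t + j ≤ n → Function.Surjective (D (n := n) t j)

/-- For `1 ≤ j`, `2 j ≤ n`, `D j (j-1) κ = 0`: by (Z) and (IE) all sums `∑_{T ⊇ I} κ T` with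
`|I| ≤ j - 1` are zero, so in (IE') only `I = K` remains. -/
def S_DEIG : Prop := ∀ n j : ℕ, 1 ≤ j → 2 * j ≤ n → ∀ κ : U n j, D j (j - 1) κ = 0 →
  D j j κ = (-1 : ℂ) ^ j • κ

/-- `U n j = range D (j-1) j + ker D j (j-1)`: let `ν ∈ U n j` be a functional (dot product)
vanishing on both. Vanishing on the range gives `D j (j-1) ν = 0` (transpose). `D` is real, so the
complex conjugate `ν*` is in the kernel, too, and `0 = ∑ ν K * conj (ν K)`, so `ν = 0`. (Use e.g.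
`Submodule.exists_le_ker_of_lt_top`.) -/
def S_DDEC : Prop := ∀ n j : ℕ, 1 ≤ j → ∀ μ : U n j, ∃ (p : U n (j - 1)) (κ : U n j),
  D j (j - 1) κ = 0 ∧ μ = D (j - 1) j p + κ

/-! ### Piece DER (derivatives of `ee` and `gg`, 1 h)

Formulas, `a ∉ S`: `∂_a (ee (k+1) S) = ee k (insert a S)`, `∂_a (ee 0 S) = 0`,
`∂_a (mm (k+1) S) = 2 x_a ee k (insert a S) + mm k (insert a S)`, `mm 0 S = 0`,
`∂_a (gg (k+1) S) = gg k (insert a S)`, `∂_a (gg 0 S) = 0`.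
For `a ∈ S`: `∂_a (ee k S) = 0`, `∂_a (mm k S) = 0`, `∂_a (gg k S) = 2 ee k S`. -/

/-- the derivatives -/
def S_DER : Prop := ∀ (n k : ℕ) (S : Finset (Fin n)) (a : Fin n),
  (a ∈ S → pderiv a (ee k S) = 0 ∧ pderiv a (gg k S) = 2 * ee k S) ∧
  (a ∉ S → pderiv a (ee 0 S) = 0 ∧ pderiv a (gg 0 S) = 0 ∧
    pderiv a (ee (k + 1) S) = ee k (insert a S) ∧ pderiv a (gg (k + 1) S) = gg k (insert a S))

/-- `m_{(2,1^{d-2})} = gg (d-1) ∅`: pairs `(j, B)`, `j ∉ B`, `|B| = d - 2`, correspond to pairs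
`(J, a)`, `a ∈ J`, `|J| = d - 1`. -/
def S_M21 : Prop := ∀ n d : ℕ, 2 ≤ d → m21 n d = gg (d - 1) ∅

/-- `∑_a x_a ∂_a^2 m_{(2,1^{d-2})} = 2 (d-1) e_{d-1}`: by `S_DER` (twice),
`∂_a^2 (gg (k+1) ∅) = ∂_a (gg k {a}) = 2 ee k {a}`, and
`∑_a x_a (ee k {a}) = (k+1) ee (k+1) ∅`. Here `d = k + 2`. -/
def S_E2 : Prop := ∀ n k : ℕ, ∑ a : Fin n, X a * pderiv a (pderiv a (gg (n := n) (k + 1) ∅)) =
  (2 * (k + 1) : ℂ) • ee (k + 1) ∅

/-- `ee k S` is homogeneous of degree `k`, `gg k S` of degree `k + 1`. -/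
def S_HOM : Prop := ∀ (n k : ℕ) (S : Finset (Fin n)),
  (ee k S).IsHomogeneous k ∧ (gg k S).IsHomogeneous (k + 1)

/-- equivariance -/
def S_REN : Prop := ∀ (n k : ℕ) (S : Finset (Fin n)) (σ : Equiv.Perm (Fin n)),
  rename σ (xm S) = xm (S.map σ.toEmbedding) ∧ rename σ (xs S) = xs (S.map σ.toEmbedding) ∧
  rename σ (ee k S) = ee k (S.map σ.toEmbedding) ∧ rename σ (gg k S) = gg k (S.map σ.toEmbedding)

/-- `∑_{i ∈ S} ee (k+1) (S \ i) = |S| ee (k+1) S + x_S ee k S`, as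
`ee (k+1) (S \ i) = ee (k+1) S + x_i ee k S`. -/
def S_STAR : Prop := ∀ (n k : ℕ) (S : Finset (Fin n)),
  ∑ i ∈ S, ee (k + 1) (S.erase i) = (S.card : ℂ) • ee (k + 1) S + xs S * ee k S

/-! ### Piece LIN (linear maps `pl`, `ps`, `ph`, 1 h) -/

/-- `pl` is injective (coefficients of the monomials `x_S`); `ps k q + pl (k+1) p = 0` implies
`q = 0` for `1 ≤ k` (apply `∂_a^2`, `a ∈ S`: it kills `pl`, and `∂_a^2 (x_S ∑_{b ∈ S} x_b) = 2 x_{S \ a}`
if `a ∈ S` and `0` if not; or compare the coefficients of `x_a x_S`, `a ∈ S`). -/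
def S_INJ : Prop := ∀ n k : ℕ, Function.Injective (pl (n := n) k) ∧
  (1 ≤ k → ∀ (q : U n k) (p : U n (k + 1)), ps k q + pl (k + 1) p = 0 → q = 0)

/-- `∑_T κ T ee j T = pl (D t j κ)`, `∑_T κ T mm k T = ps (D t k κ)`; and `x_S ee k S` is in the range of
`pl (k+1)` (a sum of squarefree monomials of degree `k + 1`). So `ph s k q = pl p + ps (D s k q)`
for some `p`. -/
def S_SUM : Prop := ∀ n t j : ℕ,
  (∀ κ : U n t, ∑ T, κ T • ee j T.1 = pl j (D t j κ)) ∧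
  (∀ κ : U n t, ∑ T, κ T • mm j T.1 = ps j (D t j κ)) ∧
  (∀ S : Finset (Fin n), ∃ p : U n (j + 1), xs S * ee j S = pl (j + 1) p) ∧
  (∀ S : Finset (Fin n), ∃ p : U n j, ee j S = pl j p)

/-- equivariance -/
def S_EQV : Prop := ∀ (n k j : ℕ) (σ : Equiv.Perm (Fin n)) (κ : U n k),
  rename σ (pl k κ) = pl k (uAct k σ κ) ∧ rename σ (ps k κ) = ps k (uAct k σ κ) ∧
  rename σ (ph k j κ) = ph k j (uAct k σ κ) ∧ D k j (uAct k σ κ) = uAct j σ (D k j κ)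

/-! ### Piece TRU (0.5 h) -/

/-- The trace of the permutation action on functions on `k`-element subsets is the number of the
fixed subsets (basis of the indicator functions, `LinearMap.trace_eq_matrix_trace`). -/
def S_TRU : Prop := ∀ (n k : ℕ) (σ : Equiv.Perm (Fin n)),
  LinearMap.trace ℂ (U n k) (uAct k σ) = fix k σ

/-! ### Piece ISO (from DISJ, DER, LIN; 1.5 h)

`Vh n d j` for `n ≥ d ≥ 3`:
* `d < j`: no generators, so `Vh = ⊥`.
* `j = 0`: spanned by `ee 0 T = 1`, `|T| = d - 1`: range of `pl 0`.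
* `j = 1`: range of `pl 1`: `gg 0 S = 2 x_S`; `ee 1 T`, `|T| = d - 2`, and `D (d-2) 1` is surjective.
* `2 ≤ j`, `2 j ≤ d` (`s := d - j ≥ j`): `Vh = {pl j p + ps (j-1) q : p ∈ U n j, q ∈ U n (j-1)}`.
  ⊆: `S_SUM`. ⊇: first `pl j p ∈ Vh` for all `p`. If `d - 1 - j ≥ j` then `p = D (d-1-j) j κ`
  (`S_DSUR`) and `pl j p = ∑ κ T ee j T`. If `2 j = d`: by `S_DDEC` `p = D (j-1) j p' + κ`,
  `pl (D (j-1) j p') = ∑ p' T ee j T` with `|T| = j - 1 = d - 1 - j`, and for `D j (j-1) κ = 0`: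
  `∑ κ S gg (j-1) S = ∑ κ S 2 x_S ee (j-1) S + ps (D j (j-1) κ) = 2 ∑ κ S x_S ee (j-1) S`, which by
  `S_STAR` is `2 ∑_S κ S ∑_{i ∈ S} ee j (S \ i) - 2 j ∑ κ S ee j S`; the first sum is in `Vh`, so
  `∑ κ S ee j S = pl (D j j κ) = ± pl κ` is in `Vh` (`S_DEIG`). Then `x_S ee (j-1) S ∈ range pl ⊆ Vh`,
  so `mm (j-1) S = gg (j-1) S - 2 x_S ee (j-1) S ∈ Vh` for `|S| = d - j`, and
  `ps (j-1) q = ∑ κ S mm (j-1) S` with `q = D (d-j) (j-1) κ` (`S_DSUR`, `j - 1 ≤ d - j`).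
  The map `(p, q) ↦ pl j p + ps (j-1) q` is injective by `S_INJ`.
* `d < 2 j`, `j < d` (`s := d - j`, `1 ≤ s ≤ j - 1`):
  `Vh = {pl j (D (s-1) j p) + ph s (j-1) q : p ∈ U n (s-1), q ∈ U n s}` by definition and `S_SUM`. The map
  is injective: `ph s (j-1) q = pl j p' + ps (j-1) (D s (j-1) q)`, so `D s (j-1) q = 0` by `S_INJ`,
  `q = 0` by `S_DINJ` (`s + j - 1 = d - 1 ≤ n`), then `D (s-1) j p = 0` and `p = 0`.
* `j = d`: `Vh` is the range of `ph 0 (d-1)`, injective as before.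
All these maps are equivariant (`S_EQV`), so they give equivariant linear equivalences from
`U n a × U n b` or `U n a` to `Vh n d j`, and the trace is the sum of the traces (`LinearMap.trace_conj'`,
`LinearMap.trace_prodMap`). -/

/-- The trace of a permutation on `Vh n d j`. -/
def S_TRV : Prop := ∀ (n d j : ℕ) (σ : Equiv.Perm (Fin n)), 3 ≤ d → d ≤ n →
  (∀ v ∈ Vh n d j, rename σ v ∈ Vh n d j) ∧ FiniteDimensional ℂ (Vh n d j) ∧
  ∀ φ : Vh n d j →ₗ[ℂ] Vh n d j,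
    (∀ v, (φ v : MvPolynomial (Fin n) ℂ) = rename σ (v : MvPolynomial (Fin n) ℂ)) →
    LinearMap.trace ℂ _ φ = tr d j (fun k => fix k σ)

/-! ### Piece VV (from DER; 0.5-1 h) -/

/-- Properties of the spaces `Vh n d j` used for the polarization: closed under derivatives; for
every `g ∈ Vh (j+1)` there is `g' ∈ Vh j` with `∂_a^2 g = ∂_a g'` for all `a` (for `g = gg k S`:
`g' = 2 ee k S`; for `g = ee (j+1) S`: `g' = 0`; then linearity); `∂_a^3 = 0`; homogeneous;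
`m_{(2,1^{d-2})} ∈ Vh d`; and generation from `m_{(2,1^{d-2})}`. -/
def S_VV : Prop := ∀ n d : ℕ, 3 ≤ d → d ≤ n →
  (∀ (j : ℕ), ∀ g ∈ Vh n d (j + 1), ∀ a, pderiv a g ∈ Vh n d j) ∧
  (∀ (j : ℕ), ∀ g ∈ Vh n d (j + 1), ∃ g' ∈ Vh n d j, ∀ a, pderiv a (pderiv a g) = pderiv a g') ∧
  (∀ (j : ℕ), ∀ g ∈ Vh n d j, ∀ a, pderiv a (pderiv a (pderiv a g)) = 0) ∧
  (∀ (j : ℕ), ∀ g ∈ Vh n d j, g.IsHomogeneous j) ∧
  m21 n d ∈ Vh n d d ∧
  (∀ W : Submodule ℂ (MvPolynomial (Fin n) ℂ), m21 n d ∈ W → (∀ a, ∀ g ∈ W, pderiv a g ∈ W) →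
    (∀ g ∈ W, ∑ a, X a * pderiv a (pderiv a g) ∈ W) → ∀ j, Vh n d j ≤ W)

/-! ### Piece POL1 (polarizations, no `Vh`; 1 h)

All statements are linear in `g`; with `comp r h := weightedHomogeneousComponent wt r h` show on
monomials `pderiv (k,j) (comp (r + e_k) h) = comp r (pderiv (k,j) h)`, and `pderiv (k,j) (comp s h) = 0`
if `s k = 0`, and `pderiv (k,j) (Th g) = Th (pderiv j g)` (induction on `g`). -/

/-- (1) `∂_{kj} cc (r + e_k) g = cc r (∂_j g)`; (2) `∂_{kj} cc s g = 0` if `s k = 0`; (3) Euler's identity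
in the row `i`; by (1), `∑_j x_{ij} cc r (∂_j g) = ∑_j x_{ij} ∂_{ij} (cc (r + e_i) g)`, and
`∑_j x_{ij} ∂_{ij}` multiplies polynomials of multidegree `s` by `s i`
(`IsWeightedHomogeneous.sum_weight_X_mul_pderiv`); (4) the row of `g`; (5) wrong degrees;
(6) components of components; (7) equivariance. -/
def S_POL1 : Prop := ∀ (ℓ n : ℕ) [NeZero ℓ],
  (∀ (r : Fin ℓ → ℕ) (k : Fin ℓ) (j : Fin n) (g : MvPolynomial (Fin n) ℂ),
    pderiv (k, j) (cc (r + Pi.single k 1) g) = cc r (pderiv j g)) ∧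
  (∀ (s : Fin ℓ → ℕ) (k : Fin ℓ) (j : Fin n) (g : MvPolynomial (Fin n) ℂ), s k = 0 →
    pderiv (k, j) (cc s g) = 0) ∧
  (∀ (r : Fin ℓ → ℕ) (i : Fin ℓ) (g : MvPolynomial (Fin n) ℂ),
    ∑ j, X (i, j) * cc r (pderiv j g) = ((r i : ℂ) + 1) • cc (r + Pi.single i 1) g) ∧
  (∀ (j : ℕ) (g : MvPolynomial (Fin n) ℂ), g.IsHomogeneous j →
    cc (Pi.single (0 : Fin ℓ) j) g = row ℓ g) ∧
  (∀ (j : ℕ) (r : Fin ℓ → ℕ) (g : MvPolynomial (Fin n) ℂ), g.IsHomogeneous j → ∑ i, r i ≠ j →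
    cc r g = 0) ∧
  (∀ (r s : Fin ℓ → ℕ) (g : MvPolynomial (Fin n) ℂ),
    weightedHomogeneousComponent wt r (cc s g) = if r = s then cc s g else 0) ∧
  (∀ (r : Fin ℓ → ℕ) (σ : Equiv.Perm (Fin n)) (g : MvPolynomial (Fin n) ℂ),
    sAct σ (cc r g) = cc r (rename σ g))

/-! ### Piece POL2 (from POL1 and VV; 1 h)

`N := span {cc r g : g ∈ Vh n d (∑ r)}`. `N` is closed: orbit: `sAct σ (row f) = row f = cc (d e_0) f`;
derivatives: (1), (2); `E^{(1)}_{i,k} (cc s g)`: `0` if `s k = 0`, and if `s = r + e_k` it is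
`∑_j x_{ij} cc r (∂_j g) = (r_i + 1) cc (r + e_i) g`; `E^{(2)}`: `0` if `s k < 2`, and if `s = r + 2 e_k` it is
`∑_j x_{ij} cc r (∂_j^2 g) = ∑_j x_{ij} cc r (∂_j g') = (r_i + 1) cc (r + e_i) g'`; `E^{(p)} = 0`, `p ≥ 3`.
So `polMod (row f) ≤ N`. Conversely `row g ∈ polMod` for `g ∈ Vh` (generation), and
`E^{(1)}_{i,0} (cc (r + e_0) g) = (r_i + 1) cc (r + e_i) g`, so `cc r g ∈ polMod` by induction on
`∑_{i ≠ 0} r i`. The same operators backwards (`E^{(1)}_{0,i} (cc (r + e_i) g) = (r_0 + 1) cc (r + e_0) g`)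
show that `cc r g = 0` implies `row g = 0`, `g = 0`. For `h ∈ N` the component `comp r h` is `cc r g` for some
`g ∈ Vh (∑ r)` (span induction, (6)). -/

/-- The polarization module, its components and its pieces. -/
def S_POL2 : Prop := ∀ (ℓ n d : ℕ) [NeZero ℓ], 3 ≤ d → d ≤ n → ∀ r : Fin ℓ → ℕ,
  (∀ g ∈ polMod (row ℓ (m21 n d)),
    weightedHomogeneousComponent wt r g ∈ polMod (row ℓ (m21 n d))) ∧
  ∃ e : Vh n d (∑ i, r i) ≃ₗ[ℂ] piece (row ℓ (m21 n d)) r, ∀ v, (e v : P ℓ n) = cc r v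

/-! ### Piece FORM (0.5 h) -/

/-- The formula of the problem, summed up: a finite case distinction and a telescoping sum. -/
def S_FORM : Prop := ∀ (d j : ℕ) (F : ℕ → ℂ), 3 ≤ d →
  ∑ i ∈ range (d / 2 + 1), (coef d i j : ℂ) * (F i - if i = 0 then 0 else F (i - 1)) = tr d j F

/-! ### Piece ALL (1 h) -/

/-- From the pieces to the whole module. `M` is stable under taking components and under all
permutations, its parts of multidegree `r` are finite-dimensional, `0` for `∑ r > d`, and the trace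
of `σ` on the part of multidegree `r` is `t (∑ r)`. Then `M` is finite-dimensional, stable under
`dAct q σ`, and the trace of `dAct q σ` on `M` is `∑_{j ≤ d} sch j q * t j` (`M` is the internal direct sum
of its parts of multidegree `r`, `r` in the finite set `∑ r ≤ d`; on such a part `dAct q σ` is
`∏ q_i^{r_i}` times `sAct σ`; `LinearMap.trace_eq_sum_trace_restrict`). -/
def S_ALL : Prop := ∀ (ℓ n d : ℕ) (M : Submodule ℂ (P ℓ n)) (σ : Equiv.Perm (Fin n))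
  (t : ℕ → ℂ),
  (∀ g ∈ M, ∀ r : Fin ℓ → ℕ, weightedHomogeneousComponent wt r g ∈ M) →
  (∀ g ∈ M, sAct σ g ∈ M) →
  (∀ r : Fin ℓ → ℕ, FiniteDimensional ℂ ↥(M ⊓ weightedHomogeneousSubmodule ℂ wt r)) →
  (∀ r : Fin ℓ → ℕ, d < ∑ i, r i → M ⊓ weightedHomogeneousSubmodule ℂ wt r = ⊥) →
  (∀ r : Fin ℓ → ℕ, ∀ φ : ↥(M ⊓ weightedHomogeneousSubmodule ℂ wt r) →ₗ[ℂ]
      ↥(M ⊓ weightedHomogeneousSubmodule ℂ wt r),
    (∀ v, (φ v : P ℓ n) = sAct σ (v : P ℓ n)) → LinearMap.trace ℂ _ φ = t (∑ i, r i)) →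
  FiniteDimensional ℂ M ∧ ∀ q : Fin ℓ → ℂ,
    (∀ g ∈ M, dAct q σ g ∈ M) ∧
    ∀ φ : M →ₗ[ℂ] M, (∀ v, (φ v : P ℓ n) = dAct q σ (v : P ℓ n)) →
      LinearMap.trace ℂ _ φ = ∑ j ∈ range (d + 1), sch j q * t j

end Pool.Agent.H89.PM
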